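import Pool.Agent.J4.H62.QS.Mono
import Pool.Agent.J4.H62.PI.Curve3

/-!
# Quasi-spherical metrics: asymptotics and conclusion
-/

set_option autoImplicit false

namespace Pool.Agent.J4.H62.QS

open Pool.Agent.K4H63.PI
open scoped BigOperators Topology
open Matrix Filter Set MeasureTheory

variable {N : E → ℝ}

theorem admFlux_qs (L : Lapse N) {r : ℝ} (hr : 0 < r) :
    admFlux (qs N) r = r / 2 * sphAvg (fun x => (N x) ^ 2 - 1) r := by
  have h1 : ∀ ω : Metric.sphere (0 : E) 1,
      ∑ j, (∑ i, (pd i (fun y => qs N y i j) (r • (ω : E)) -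
        pd j (fun y => qs N y i i) (r • (ω : E)))) * (ω : E) j =
        2 / r * ((N (r • (ω : E))) ^ 2 - 1) := by
    intro ω
    have hω := sphere_norm ω
    have hx := ray_ne hω hr
    have hn := ray_norm hω hr
    set x := r • (ω : E) with hxd
    have hfd := (fN_contDiffAt hx (L.at hx)).differentiableAt (by norm_num : (2 : WithTop ℕ∞) ≠ 0)
    have hcg : ∀ i j : Fin 3, (fun y => qs N y i j) =ᶠ[𝓝 x] fun y => mf (fN N) y i j := by
      intro i j
      filter_upwards [eventually_ne_zero hx] with y hy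
      rw [qs_eq hy]
    have hω2 : ∀ j, (ω : E) j = x j / r := by
      intro j
      rw [hxd]
      simp only [PiLp.smul_apply, smul_eq_mul]
      field_simp
    have hone := one_add (N := N) hx
    have e : (N x) ^ 2 - 1 = fN N x * R2 x := by linarith
    rw [e]
    have hR : R2 x = x 0 * x 0 + x 1 * x 1 + x 2 * x 2 := rfl
    have hR' : R2 x = r ^ 2 := by rw [R2_eq, hn]
    simp only [fun i j m => pd_congr (hcg i j) m, pd_mf hfd, hω2]
    simp only [Fin.sum_univ_three]
    simp only [kd]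
    simp only [if_true, Fin.reduceEq, if_false]
    rw [hR'] at hR
    rw [hR']
    field_simp
    linear_combination (-2 * fN N x) * hR
  unfold admFlux sphAvg
  simp only [h1]
  rw [integral_const_mul]
  have := Real.pi_ne_zero
  field_simp
  ring

/-- Asymptotic flatness of `N² dr² + r² dσ²`, total mass `m`. -/
structure FlatQS (N : E → ℝ) (m : ℝ) : Prop where
  decay : ∃ C R : ℝ, ∀ x : E, R ≤ ‖x‖ → |(N x) ^ 2 - 1| ≤ C / ‖x‖
  mass : Tendsto (admFlux (qs N)) atTop (𝓝 m)

theorem mass_tendsto (L : Lapse N) {h : E → Matrix (Fin 3) (Fin 3) ℝ} (H : Tensor h) {m : ℝ}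
    (flat : FlatQS N m) (decay : Decay h) : Tendsto (mass N h) atTop (𝓝 (2 * m)) := by
  obtain ⟨C, R, hC⟩ := flat.decay
  obtain ⟨C', hC'⟩ := decay
  have cN := L.smooth.continuousOn
  have cW := (W_smooth L).continuousOn
  have c1 : ContinuousOn (fun x => ((N x) ^ 2 - 1) ^ 2 * W (fN N) x) {0}ᶜ :=
    (((cN.pow 2).sub continuousOn_const).pow 2).mul cW
  -- `r (1 - ⟨w⟩) = 2 admFlux - r ⟨(N² - 1)² w⟩`
  have e1 : ∀ r, 0 < r → r * (1 - sphAvg (W (fN N)) r) = 2 * admFlux (qs N) r -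
      r * sphAvg (fun x => ((N x) ^ 2 - 1) ^ 2 * W (fN N) x) r := by
    intro r hr
    rw [admFlux_qs L hr]
    have h1 : sphAvg (fun x => (N x) ^ 2 - 1) r - sphAvg (fun x => ((N x) ^ 2 - 1) ^ 2 *
        W (fN N) x) r = 1 - sphAvg (W (fN N)) r := by
      rw [← sphAvg_sub (F := fun x => (N x) ^ 2 - 1) ((cN.pow 2).sub continuousOn_const) c1 hr]
      have h2 : sphAvg (fun x => (N x) ^ 2 - 1 - ((N x) ^ 2 - 1) ^ 2 * W (fN N) x) r =
          sphAvg (fun x => 1 - W (fN N) x) r := by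
        refine sphAvg_congr fun w hw => ?_
        have hx := ray_ne hw hr
        have hp := L.pos _ hx
        rw [W_eq hx]
        field_simp
        ring
      rw [h2, sphAvg_sub (F := fun _ => (1 : ℝ)) continuousOn_const cW hr, sphAvg_const]
    rw [← h1]
    ring
  have hlim1 : Tendsto (fun r => r * sphAvg (fun x => ((N x) ^ 2 - 1) ^ 2 * W (fN N) x) r) atTop
      (𝓝 0) := by
    have h3 : Tendsto (fun r : ℝ => 2 * C ^ 2 * r⁻¹) atTop (𝓝 (2 * C ^ 2 * 0)) :=
      tendsto_inv_atTop_zero.const_mul _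
    rw [mul_zero] at h3
    refine squeeze_zero' ?_ ?_ h3
    · filter_upwards [eventually_gt_atTop 0] with r hr
      have h4 := sphAvg_mono (F := fun _ => (0:ℝ)) continuousOn_const c1 hr (fun w hw => by
        have hx := ray_ne hw hr
        have hp := L.pos _ hx
        rw [W_eq hx]
        positivity)
      rw [sphAvg_const] at h4
      positivity
    · filter_upwards [eventually_gt_atTop 0, eventually_ge_atTop R,
        eventually_ge_atTop (2 * |C|)] with r hr hR hr2
      have h4 := sphAvg_mono (F := fun x => ((N x) ^ 2 - 1) ^ 2 * W (fN N) x)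
        (G := fun _ => 2 * C ^ 2 / r ^ 2) c1 continuousOn_const hr (fun w hw => by
        have hx := ray_ne hw hr
        have hp := L.pos _ hx
        have h5 := hC (r • w) (by rw [ray_norm hw hr]; exact hR)
        rw [ray_norm hw hr] at h5
        have h6 : C / r ≤ 1 / 2 := by
          rw [div_le_div_iff₀ hr (by norm_num)]
          have := le_abs_self C
          linarith
        have h7 : 1 / 2 ≤ (N (r • w)) ^ 2 := by
          have := (abs_le.1 h5).1
          linarith
        have h8 : W (fN N) (r • w) ≤ 2 := by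
          rw [W_eq hx]
          calc ((N (r • w)) ^ 2)⁻¹ ≤ (1 / 2)⁻¹ := inv_anti₀ (by norm_num) h7
            _ = 2 := by norm_num
        have h9 : ((N (r • w)) ^ 2 - 1) ^ 2 ≤ (C / r) ^ 2 := by
          rw [← sq_abs]
          exact pow_le_pow_left₀ (abs_nonneg _) h5 2
        have h10 : 0 ≤ W (fN N) (r • w) := by
          rw [W_eq hx]
          positivity
        calc ((N (r • w)) ^ 2 - 1) ^ 2 * W (fN N) (r • w) ≤ (C / r) ^ 2 * 2 :=
              mul_le_mul h9 h8 h10 (by positivity)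
          _ = 2 * C ^ 2 / r ^ 2 := by ring)
      rw [sphAvg_const] at h4
      calc r * sphAvg (fun x => ((N x) ^ 2 - 1) ^ 2 * W (fN N) x) r ≤ r * (2 * C ^ 2 / r ^ 2) :=
            mul_le_mul_of_nonneg_left h4 hr.le
        _ = 2 * C ^ 2 * r⁻¹ := by field_simp
  have hlim2 : Tendsto (fun r => r ^ 3 * sphAvg (fun x => (qq h x) ^ 2) r / 4) atTop (𝓝 0) := by
    have h3 : Tendsto (fun r : ℝ => 36 * C' ^ 2 * r⁻¹) atTop (𝓝 (36 * C' ^ 2 * 0)) :=
      tendsto_inv_atTop_zero.const_mul _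
    rw [mul_zero] at h3
    refine squeeze_zero' ?_ ?_ h3
    · filter_upwards [eventually_gt_atTop 0] with r hr
      have h4 := sphAvg_mono (F := fun _ => (0:ℝ)) (G := fun x => (qq h x) ^ 2) continuousOn_const
        (H.qq_smooth.continuousOn.pow 2) hr (fun w hw => sq_nonneg _)
      rw [sphAvg_const] at h4
      positivity
    · filter_upwards [eventually_ge_atTop 1] with r hr
      have h0 : 0 < r := by linarith
      have h4 := sphAvg_mono (F := fun x => (qq h x) ^ 2) (G := fun _ => (12 * C' / r ^ 2) ^ 2)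
        (H.qq_smooth.continuousOn.pow 2) continuousOn_const h0 (fun w hw => by
        have h2 := hC' (r • w) (by rw [ray_norm hw h0]; exact hr)
        rw [ray_norm hw h0] at h2
        have h3 : |qq h (r • w)| ≤ 12 * C' / r ^ 2 :=
          (qq_bound (ray_ne hw h0) h2).trans (le_of_eq (by ring))
        rw [← sq_abs]
        exact pow_le_pow_left₀ (abs_nonneg _) h3 2)
      rw [sphAvg_const] at h4
      calc r ^ 3 * sphAvg (fun x => (qq h x) ^ 2) r / 4 ≤ r ^ 3 * (12 * C' / r ^ 2) ^ 2 / 4 := by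
            gcongr
        _ = 36 * C' ^ 2 * r⁻¹ := by field_simp; ring
  have h5 := ((flat.mass.const_mul 2).sub hlim1).add hlim2
  rw [sub_zero, add_zero] at h5
  refine h5.congr' ?_
  filter_upwards [eventually_gt_atTop 0] with r hr
  unfold mass
  rw [e1 r hr]

/-- The centred sphere of radius `r` is trapped on average: `⟨H²⟩ ≤ ⟨(tr_S h)²⟩`. -/
def Trapped (N : E → ℝ) (h : E → Matrix (Fin 3) (Fin 3) ℝ) (r : ℝ) : Prop :=
  sphAvg (fun x => (mcS N x) ^ 2) r ≤ sphAvg (fun x => (qq h x) ^ 2) r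

theorem avg_H2 {r : ℝ} (hr : 0 < r) :
    sphAvg (fun x => (mcS N x) ^ 2) r = 4 / r ^ 2 * sphAvg (W (fN N)) r := by
  rw [← sphAvg_mul]
  refine sphAvg_congr fun w hw => ?_
  rw [W_eq (ray_ne hw hr)]
  unfold mcS
  rw [ray_norm hw hr, div_pow, mul_pow]
  field_simp
  norm_num

theorem mass_eq {h : E → Matrix (Fin 3) (Fin 3) ℝ} {r : ℝ} (hr : 0 < r) :
    mass N h r = r + r ^ 3 / 4 * (sphAvg (fun x => (qq h x) ^ 2) r -
      sphAvg (fun x => (mcS N x) ^ 2) r) := by
  rw [avg_H2 hr]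
  unfold mass
  field_simp
  ring

/-- The condition on the sphere of radius `r`. -/
def CondAt (N : E → ℝ) (h : E → Matrix (Fin 3) (Fin 3) ℝ) (r : ℝ) : Prop :=
  (∀ w : E, ‖w‖ = 1 → tdot (fun y => mcS N y * qq h y) (fun y => mcS N y * qq h y) (r • w) ≤
    tdot (fun y => (mcS N y) ^ 2) (fun y => (mcS N y) ^ 2) (r • w)) ∨ 0 ≤ sphAvg (QQ N h) r

theorem mass_mono (L : Lapse N) {h : E → Matrix (Fin 3) (Fin 3) ℝ} (H : Tensor h) {r₀ : ℝ}
    (hr₀ : 0 < r₀)
    (dec : ∀ r, r₀ < r → ∀ w : E, ‖w‖ = 1 →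
      momentumNorm (qs N) h (r • w) ≤ energy (qs N) h (r • w))
    (flux : ∀ r, r₀ < r → ∀ w : E, ‖w‖ = 1 → |qq h (r • w)| ≤ mcS N (r • w) ∨
      qq h (r • w) * JN N h (r • w) ≤ 0)
    (cond : ∀ r, r₀ < r → CondAt N h r) : MonotoneOn (mass N h) (Ici r₀) := by
  apply monotoneOn_of_deriv_nonneg (convex_Ici r₀)
  · intro r hr
    obtain ⟨d, hd, _⟩ := mass_hasDerivAt L H (hr₀.trans_le hr)
    exact hd.continuousAt.continuousWithinAt
  · intro r hr
    rw [interior_Ici] at hr
    obtain ⟨d, hd, _⟩ := mass_hasDerivAt L H (hr₀.trans hr)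
    exact hd.differentiableAt.differentiableWithinAt
  · intro r hr
    rw [interior_Ici] at hr
    have hr' : r₀ < r := hr
    have h0 : 0 < r := hr₀.trans hr'
    obtain ⟨d, hd, he⟩ := mass_hasDerivAt L H h0
    rw [hd.deriv, he]
    refine le_trans ?_ (mass_deriv_ge L H h0 (dec r hr') (flux r hr'))
    refine mul_nonneg (by positivity) ?_
    rcases cond r hr' with hc | hc
    · have h1 := sphAvg_mono (F := fun _ => (0:ℝ)) (G := QQ N h) continuousOn_const (QQ_cont L H) h0
        (fun w hw => QQ_nonneg H (ray_ne hw h0) (L.diff (ray_ne hw h0)) (L.pos _ (ray_ne hw h0))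
          (hc w hw))
      rwa [sphAvg_const] at h1
    · exact hc

theorem mass_le (L : Lapse N) {h : E → Matrix (Fin 3) (Fin 3) ℝ} (H : Tensor h) {m : ℝ}
    (flat : FlatQS N m) (decay : Decay h) {r₀ : ℝ} (hm : MonotoneOn (mass N h) (Ici r₀)) :
    mass N h r₀ ≤ 2 * m := by
  refine ge_of_tendsto (mass_tendsto L H flat decay) ?_
  filter_upwards [eventually_ge_atTop r₀] with r hr
  exact hm (mem_Ici.2 le_rfl) (mem_Ici.2 hr) hr

/-- The function whose sign decides whether a sphere is trapped on average. -/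
noncomputable def uu (N : E → ℝ) (h : E → Matrix (Fin 3) (Fin 3) ℝ) (r : ℝ) : ℝ :=
  sphAvg (fun x => (mcS N x) ^ 2) r - sphAvg (fun x => (qq h x) ^ 2) r

theorem uu_cont (L : Lapse N) {h : E → Matrix (Fin 3) (Fin 3) ℝ} (H : Tensor h) {r : ℝ}
    (hr : 0 < r) : ContinuousAt (uu N h) r := by
  refine ContinuousAt.sub ?_ (sphAvg_continuousAt (H.qq_smooth.continuousOn.pow 2) hr)
  have h1 : ContinuousAt (fun r => 4 / r ^ 2 * sphAvg (W (fN N)) r) r :=
    (continuousAt_const.div (continuousAt_id.pow 2) (pow_ne_zero 2 hr.ne')).mul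
      (sphAvg_continuousAt (W_smooth L).continuousOn hr)
  refine h1.congr ?_
  filter_upwards [Ioi_mem_nhds hr] with s hs
  exact (avg_H2 hs).symm

/-- Near infinity the spheres are untrapped. -/
theorem uu_pos (L : Lapse N) {h : E → Matrix (Fin 3) (Fin 3) ℝ} (H : Tensor h) {m : ℝ}
    (flat : FlatQS N m) (decay : Decay h) : ∀ᶠ r in atTop, 0 < uu N h r := by
  -- `mass = r - r³ u / 4` is bounded, hence `u > 0` for large `r`
  have h1 := (mass_tendsto L H flat decay).eventually (gt_mem_nhds (show 2 * m < 2 * m + 1 by linarith))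
  filter_upwards [h1, eventually_gt_atTop 0, eventually_gt_atTop (2 * m + 1)] with r h2 h3 h4
  rw [mass_eq h3] at h2
  by_contra hcon
  have h5 : uu N h r ≤ 0 := not_lt.1 hcon
  unfold uu at h5
  have h6 : 0 ≤ r ^ 3 / 4 * (sphAvg (fun x => (qq h x) ^ 2) r -
      sphAvg (fun x => (mcS N x) ^ 2) r) := mul_nonneg (by positivity) (by linarith)
  linarith

/-- The mass is at least half the radius of every centred sphere which is trapped on average. -/
theorem core_trapped (L : Lapse N) {h : E → Matrix (Fin 3) (Fin 3) ℝ} (H : Tensor h) {m : ℝ}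
    (flat : FlatQS N m) (decay : Decay h) {r₁ : ℝ} (hr₁ : 0 < r₁) (trapped : Trapped N h r₁)
    (dec : ∀ r, r₁ < r → (∀ s, r ≤ s → ¬ Trapped N h s) → ∀ w : E, ‖w‖ = 1 →
      momentumNorm (qs N) h (r • w) ≤ energy (qs N) h (r • w))
    (flux : ∀ r, r₁ < r → (∀ s, r ≤ s → ¬ Trapped N h s) → ∀ w : E, ‖w‖ = 1 →
      |qq h (r • w)| ≤ mcS N (r • w) ∨ qq h (r • w) * JN N h (r • w) ≤ 0)
    (cond : ∀ r, r₁ < r → (∀ s, r ≤ s → ¬ Trapped N h s) → CondAt N h r) :
    r₁ ≤ 2 * m := by
  obtain ⟨R, hR⟩ := eventually_atTop.1 (uu_pos L H flat decay)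
  set S : Set ℝ := {r | r₁ ≤ r ∧ uu N h r ≤ 0} with hS
  have hne : S.Nonempty := ⟨r₁, le_rfl, by unfold uu; unfold Trapped at trapped; linarith⟩
  have hbdd : BddAbove S := by
    refine ⟨R, fun r hr => ?_⟩
    by_contra hlt
    exact absurd hr.2 (not_le.2 (hR r (not_le.1 hlt).le))
  set r₀ := sSup S with hr₀
  have h10 : r₁ ≤ r₀ := le_csSup hbdd ⟨le_rfl, by unfold uu; unfold Trapped at trapped; linarith⟩
  have h00 : 0 < r₀ := hr₁.trans_le h10
  have hgt : ∀ r, r₀ < r → ¬ Trapped N h r := by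
    intro r hr ht
    have : r ∈ S := ⟨h10.trans hr.le, by unfold uu; unfold Trapped at ht; linarith⟩
    exact absurd (le_csSup hbdd this) (not_le.2 hr)
  have hle0 : uu N h r₀ ≤ 0 := by
    have hcl : r₀ ∈ closure S := csSup_mem_closure hne hbdd
    obtain ⟨s, hs, hlim⟩ := mem_closure_iff_seq_limit.1 hcl
    exact le_of_tendsto ((uu_cont L H h00).tendsto.comp hlim)
      (Eventually.of_forall fun n => (hs n).2)
  have hU : ∀ r, r₀ < r → ∀ s, r ≤ s → ¬ Trapped N h s := fun r hr s hs => hgt s (hr.trans_le hs)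
  have hm := mass_mono L H h00
    (fun r hr => dec r (h10.trans_lt hr) (hU r hr))
    (fun r hr => flux r (h10.trans_lt hr) (hU r hr))
    (fun r hr => cond r (h10.trans_lt hr) (hU r hr))
  have h1 := mass_le L H flat decay hm
  rw [mass_eq h00] at h1
  unfold uu at hle0
  have h6 : 0 ≤ r₀ ^ 3 / 4 * (sphAvg (fun x => (qq h x) ^ 2) r₀ -
      sphAvg (fun x => (mcS N x) ^ 2) r₀) := mul_nonneg (by positivity) (by linarith)
  linarith

/-- If no sphere beyond the radius `b` is trapped on average, the mass function is a lower bound. -/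
theorem core_untrapped (L : Lapse N) {h : E → Matrix (Fin 3) (Fin 3) ℝ} (H : Tensor h) {m : ℝ}
    (flat : FlatQS N m) (decay : Decay h) {b : ℝ} (hb : 0 < b)
    (un : ∀ r, b < r → ¬ Trapped N h r)
    (dec : ∀ r, b < r → (∀ s, r ≤ s → ¬ Trapped N h s) → ∀ w : E, ‖w‖ = 1 →
      momentumNorm (qs N) h (r • w) ≤ energy (qs N) h (r • w))
    (flux : ∀ r, b < r → (∀ s, r ≤ s → ¬ Trapped N h s) → ∀ w : E, ‖w‖ = 1 →
      |qq h (r • w)| ≤ mcS N (r • w) ∨ qq h (r • w) * JN N h (r • w) ≤ 0)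
    (cond : ∀ r, b < r → (∀ s, r ≤ s → ¬ Trapped N h s) → CondAt N h r) :
    b - b ^ 3 / 4 * sphAvg (fun x => (mcS N x) ^ 2) b ≤ 2 * m := by
  have hU : ∀ r, b < r → ∀ s, r ≤ s → ¬ Trapped N h s := fun r hr s hs => un s (hr.trans_le hs)
  have hm := mass_mono L H hb (fun r hr => dec r hr (hU r hr))
    (fun r hr => flux r hr (hU r hr)) (fun r hr => cond r hr (hU r hr))
  have h1 := mass_le L H flat decay hm
  rw [mass_eq hb] at h1
  have h4 := sphAvg_mono (F := fun _ => (0:ℝ)) (G := fun x => (qq h x) ^ 2) continuousOn_const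
    (H.qq_smooth.continuousOn.pow 2) hb (fun w hw => sq_nonneg _)
  rw [sphAvg_const] at h4
  have h5 : 0 ≤ b ^ 3 / 4 * sphAvg (fun x => (qq h x) ^ 2) b := by positivity
  linarith

end Pool.Agent.J4.H62.QS
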