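import Pool.Agent.K4H63.PI.Rad

/-!
# Metrics `δ + f x ⊗ x`: Christoffel symbols
-/

set_option autoImplicit false

namespace Pool.Agent.J4.H62.QS

open Pool.Agent.K4H63.PI
open scoped BigOperators Topology
open Matrix Filter Set

/-- `F` is differentiable at `x` with partial derivatives `F'`. -/
structure HasPd (F : E → ℝ) (F' : Fin 3 → ℝ) (x : E) : Prop where
  diff : DifferentiableAt ℝ F x
  eq : ∀ m, pd m F x = F' m

variable {F G : E → ℝ} {F' G' : Fin 3 → ℝ} {x : E}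

theorem HasPd.mul (hF : HasPd F F' x) (hG : HasPd G G' x) :
    HasPd (fun y => F y * G y) (fun m => F x * G' m + G x * F' m) x :=
  ⟨hF.diff.mul hG.diff, fun m => by rw [pd_mul hF.diff hG.diff, hF.eq, hG.eq]⟩

theorem HasPd.add (hF : HasPd F F' x) (hG : HasPd G G' x) :
    HasPd (fun y => F y + G y) (fun m => F' m + G' m) x :=
  ⟨hF.diff.add hG.diff, fun m => by rw [pd_add hF.diff hG.diff, hF.eq, hG.eq]⟩

theorem HasPd.sub (hF : HasPd F F' x) (hG : HasPd G G' x) :
    HasPd (fun y => F y - G y) (fun m => F' m - G' m) x :=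
  ⟨hF.diff.sub hG.diff, fun m => by rw [pd_sub hF.diff hG.diff, hF.eq, hG.eq]⟩

theorem HasPd.const (c : ℝ) (x : E) : HasPd (fun _ => c) (fun _ => 0) x :=
  ⟨differentiableAt_const _, fun m => pd_const c x m⟩

theorem HasPd.const_mul (c : ℝ) (hF : HasPd F F' x) :
    HasPd (fun y => c * F y) (fun m => c * F' m) x := by
  have := (HasPd.const c x).mul hF
  refine ⟨this.diff, fun m => ?_⟩
  rw [this.eq]
  ring

theorem HasPd.coord (j : Fin 3) (x : E) : HasPd (fun y => y j) (fun m => kd m j) x :=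
  ⟨(hasFDerivAt_coord x j).differentiableAt, fun m => pd_coord x m j⟩

theorem HasPd.comp {c : ℝ → ℝ} {c' : ℝ} (hF : HasPd F F' x) (hc : HasDerivAt c c' (F x)) :
    HasPd (fun y => c (F y)) (fun m => c' * F' m) x := by
  have h1 : HasFDerivAt (fun y => c (F y)) (c' • fderiv ℝ F x) x :=
    hc.comp_hasFDerivAt x hF.diff.hasFDerivAt
  refine ⟨h1.differentiableAt, fun m => ?_⟩
  have := hF.eq m
  unfold pd at this ⊢
  rw [h1.fderiv, ContinuousLinearMap.smul_apply, this, smul_eq_mul]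

theorem HasPd.inv (hF : HasPd F F' x) (h0 : F x ≠ 0) :
    HasPd (fun y => (F y)⁻¹) (fun m => -((F x) ^ 2)⁻¹ * F' m) x :=
  hF.comp (c := fun t => t⁻¹) (hasDerivAt_inv h0)

theorem HasPd.congr (hF : HasPd F F' x) (h : G =ᶠ[𝓝 x] F) : HasPd G F' x :=
  ⟨h.differentiableAt_iff.2 hF.diff, fun m => by rw [pd_congr h, hF.eq]⟩

theorem HasPd.congr' (hF : HasPd F F' x) (h : ∀ m, F' m = G' m) : HasPd F G' x :=
  ⟨hF.diff, fun m => by rw [hF.eq, h]⟩

/-- The square of the Euclidean norm. -/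
def R2 (y : E) : ℝ := y 0 * y 0 + y 1 * y 1 + y 2 * y 2

theorem R2_eq (y : E) : R2 y = ‖y‖ ^ 2 := by
  rw [norm_sq_eq]
  unfold R2
  ring

theorem R2_pd (x : E) : HasPd R2 (fun m => 2 * x m) x := by
  have h := (((HasPd.coord 0 x).mul (HasPd.coord 0 x)).add
    ((HasPd.coord 1 x).mul (HasPd.coord 1 x))).add ((HasPd.coord 2 x).mul (HasPd.coord 2 x))
  refine HasPd.congr' (F := R2) h fun m => ?_
  fin_cases m <;> simp [kd] <;> ring

/-- The metric `δ + f x ⊗ x`. -/
noncomputable def mf (f : E → ℝ) (x : E) : Matrix (Fin 3) (Fin 3) ℝ :=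
  Matrix.of fun i j => kd i j + f x * (x i * x j)

/-- `(1 + f |x|²)⁻¹`. -/
noncomputable def W (f : E → ℝ) (y : E) : ℝ := (1 + f y * R2 y)⁻¹

/-- `x · ∇f`. -/
noncomputable def Dd (f : E → ℝ) (y : E) : ℝ := y 0 * pd 0 f y + y 1 * pd 1 f y + y 2 * pd 2 f y

/-- The inverse metric. -/
noncomputable def mfi (f : E → ℝ) (x : E) : Matrix (Fin 3) (Fin 3) ℝ :=
  Matrix.of fun i j => kd i j - f x * W f x * (x i * x j)

theorem mf_inv (f : E → ℝ) {x : E} (h : 1 + f x * R2 x ≠ 0) : (mf f x)⁻¹ = mfi f x := by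
  have hw : W f x * (1 + f x * R2 x) = 1 := inv_mul_cancel₀ h
  unfold R2 at hw
  apply Matrix.inv_eq_right_inv
  ext i j
  rw [Matrix.mul_apply, Fin.sum_univ_three, Matrix.one_apply]
  simp only [mf, mfi, Matrix.of_apply]
  have e : (if i = j then (1:ℝ) else 0) = kd i j := rfl
  rw [e]
  have k0 : kd i 0 * kd 0 j + kd i 1 * kd 1 j + kd i 2 * kd 2 j = kd i j := by
    fin_cases i <;> fin_cases j <;> simp [kd]
  have k1 : kd i 0 * x 0 + kd i 1 * x 1 + kd i 2 * x 2 = x i := by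
    fin_cases i <;> simp [kd]
  have k2 : kd 0 j * x 0 + kd 1 j * x 1 + kd 2 j * x 2 = x j := by
    fin_cases j <;> simp [kd]
  linear_combination k0 - f x * W f x * x j * k1 + f x * x i * k2 - f x * x i * x j * hw

theorem pd_mf {f : E → ℝ} {x : E} (hf : DifferentiableAt ℝ f x) (m i j : Fin 3) :
    pd m (fun y => mf f y i j) x =
      pd m f x * (x i * x j) + f x * (kd m i * x j + kd m j * x i) := by
  have h1 : HasPd f (fun m => pd m f x) x := ⟨hf, fun _ => rfl⟩
  have h := (HasPd.const (kd i j) x).add (h1.mul ((HasPd.coord i x).mul (HasPd.coord j x)))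
  have h2 := h.eq m
  have e : (fun y => mf f y i j) = fun y => kd i j + f y * (y i * y j) := rfl
  rw [e, h2]
  ring

/-- The coefficients `a_{ij}` of `Γ^k_{ij} = x_k a_{ij} - (∂_k f) x_i x_j / 2`. -/
noncomputable def aa (f : E → ℝ) (i j : Fin 3) (y : E) : ℝ :=
  W f y * (1 / 2 * (pd i f y * y j + pd j f y * y i) + f y * kd i j +
    1 / 2 * (f y * Dd f y * (y i * y j)))

theorem kd_symm (i j : Fin 3) : kd i j = kd j i := by
  fin_cases i <;> fin_cases j <;> simp [kd]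

theorem kd_sum (i : Fin 3) (v : Fin 3 → ℝ) : kd i 0 * v 0 + kd i 1 * v 1 + kd i 2 * v 2 = v i := by
  fin_cases i <;> simp [kd]

theorem chr_mf {f : E → ℝ} {x : E} (hf : DifferentiableAt ℝ f x) (h : 1 + f x * R2 x ≠ 0)
    (k i j : Fin 3) :
    chr (mf f) k i j x = x k * aa f i j x - 1 / 2 * (pd k f x * (x i * x j)) := by
  have hw : W f x * (1 + f x * R2 x) = 1 := inv_mul_cancel₀ h
  unfold R2 at hw
  unfold chr
  rw [mf_inv f h]
  simp only [pd_mf hf, Fin.sum_univ_three, mfi, Matrix.of_apply]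
  unfold aa Dd
  have a1 := kd_sum k (fun l => x l)
  have a4 := kd_sum k (fun l => pd l f x)
  simp only at a1 a4
  rw [kd_symm j i, kd_symm 0 i, kd_symm 1 i, kd_symm 2 i, kd_symm 0 j, kd_symm 1 j, kd_symm 2 j]
  linear_combination (1 / 2) * (pd i f x * x j + pd j f x * x i + 2 * f x * kd i j) * a1 -
    (1 / 2) * x i * x j * a4 -
    x k * (1 / 2 * (pd i f x * x j + pd j f x * x i) + f x * kd i j) * hw

end Pool.Agent.J4.H62.QS
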