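import Pool.Agent.J4.H62.QS.Lapse

/-!
# Quasi-spherical metrics: the signs
-/

set_option autoImplicit false

namespace Pool.Agent.J4.H62.QS

open Pool.Agent.K4H63.PI
open scoped BigOperators Topology
open Matrix Filter Set MeasureTheory

variable {N : E → ℝ} {x : E}

/-- The inner product of the tangential parts of two vectors. -/
noncomputable def tt (x : E) (a b : Fin 3 → ℝ) : ℝ :=
  (∑ i, a i * b i) - (∑ i, (x i / ‖x‖) * a i) * ∑ i, (x i / ‖x‖) * b i

theorem tdot_eq {F G : E → ℝ} {F' G' : Fin 3 → ℝ} (hF : HasPd F F' x) (hG : HasPd G G' x) :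
    tdot F G x = tt x F' G' := by
  unfold tdot tt dr
  simp only [hF.eq, hG.eq]

theorem tt_normal (hx : x ≠ 0) (a : Fin 3 → ℝ) (c : ℝ) :
    tt x (fun i => a i + c * (x i / ‖x‖)) (fun i => a i + c * (x i / ‖x‖)) = tt x a a := by
  have hu := sum_unit hx
  unfold tt
  simp only [Fin.sum_univ_three] at hu ⊢
  set n0 := x 0 / ‖x‖
  set n1 := x 1 / ‖x‖
  set n2 := x 2 / ‖x‖
  linear_combination (-(2 * c * (n0 * a 0 + n1 * a 1 + n2 * a 2)) -
    c ^ 2 * (n0 ^ 2 + n1 ^ 2 + n2 ^ 2)) * hu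

theorem tt_smul (a : Fin 3 → ℝ) (c : ℝ) : tt x (fun i => c * a i) (fun i => c * a i) =
    c ^ 2 * tt x a a := by
  unfold tt
  simp only [Fin.sum_univ_three]
  ring

theorem mcS_pd (hx : x ≠ 0) (hN : DifferentiableAt ℝ N x) (h0 : 0 < N x) :
    HasPd (mcS N) (fun m => -mcS N x * (pd m (logN N) x + x m / ‖x‖ ^ 2)) x := by
  have hr : 0 < ‖x‖ := norm_pos_iff.2 hx
  have h1 : HasPd (fun y : E => ‖y‖) (fun m => x m / ‖x‖) x :=
    ⟨(hasFDerivAt_norm' hx).differentiableAt, fun m => pd_norm hx m⟩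
  have h2 : HasPd N (fun m => pd m N x) x := ⟨hN, fun _ => rfl⟩
  have h3 := HasPd.const_mul 2 ((h1.mul h2).inv (by positivity))
  have h4 : mcS N = fun y => 2 * (‖y‖ * N y)⁻¹ := by
    funext y
    unfold mcS
    rw [div_eq_mul_inv]
  rw [h4]
  refine h3.congr' fun m => ?_
  rw [(logN_pd hN h0).eq]
  field_simp

/-- `∇_S (H tr_S h) = H (∇_S tr_S h - (tr_S h) ∇_S log N)`. -/
theorem tdot_Hq {h : E → Matrix (Fin 3) (Fin 3) ℝ} (H : Tensor h) (hx : x ≠ 0)
    (hN : DifferentiableAt ℝ N x) (h0 : 0 < N x) :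
    tdot (fun y => mcS N y * qq h y) (fun y => mcS N y * qq h y) x = (mcS N x) ^ 2 *
      tt x (fun i => pd i (qq h) x - qq h x * pd i (logN N) x)
        (fun i => pd i (qq h) x - qq h x * pd i (logN N) x) := by
  have hr : ‖x‖ ≠ 0 := norm_ne_zero_iff.2 hx
  have h1 : HasPd (qq h) (fun m => pd m (qq h) x) x := ⟨H.qq_diff hx, fun _ => rfl⟩
  have h2 := (mcS_pd hx hN h0).mul h1
  rw [tdot_eq h2 h2]
  have e : (fun m => mcS N x * pd m (qq h) x + qq h x *
      (-mcS N x * (pd m (logN N) x + x m / ‖x‖ ^ 2))) =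
      fun m => mcS N x * (pd m (qq h) x - qq h x * pd m (logN N) x) +
        (-mcS N x * qq h x / ‖x‖) * (x m / ‖x‖) := by
    funext m
    field_simp
    ring
  rw [e, tt_normal hx, tt_smul]

theorem tdot_HH (hx : x ≠ 0) (hN : DifferentiableAt ℝ N x) (h0 : 0 < N x) :
    tdot (fun y => (mcS N y) ^ 2) (fun y => (mcS N y) ^ 2) x =
      4 * (mcS N x) ^ 4 * tdot (logN N) (logN N) x := by
  have hr : ‖x‖ ≠ 0 := norm_ne_zero_iff.2 hx
  have h1 := mcS_pd hx hN h0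
  have h2 := h1.mul h1
  have e0 : (fun y => (mcS N y) ^ 2) = fun y => mcS N y * mcS N y := by
    funext y; ring
  have h3 : HasPd (logN N) (fun m => pd m (logN N) x) x :=
    ⟨(logN_pd hN h0).diff, fun _ => rfl⟩
  rw [e0, tdot_eq h2 h2, tdot_eq h3 h3]
  have e : (fun m => mcS N x * (-mcS N x * (pd m (logN N) x + x m / ‖x‖ ^ 2)) +
      mcS N x * (-mcS N x * (pd m (logN N) x + x m / ‖x‖ ^ 2))) =
      fun m => -2 * (mcS N x) ^ 2 * pd m (logN N) x +
        (-2 * (mcS N x) ^ 2 / ‖x‖) * (x m / ‖x‖) := by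
    funext m
    field_simp
    ring
  rw [e, tt_normal hx, tt_smul]
  ring

/-- Cauchy-Schwarz for the mixed part. -/
theorem bdot_sq (h : E → Matrix (Fin 3) (Fin 3) ℝ) (hx : x ≠ 0) (u : Fin 3 → ℝ) :
    (∑ i, mixed h i x * u i) ^ 2 ≤ b2 h x * tt x u u := by
  have hr : ‖x‖ ≠ 0 := norm_ne_zero_iff.2 hx
  have ht := mixed_tangential h hx
  have hu := sum_unit hx
  set c := ∑ i, (x i / ‖x‖) * u i with hc
  have h1 := Finset.sum_mul_sq_le_sq_mul_sq Finset.univ (fun i => mixed h i x)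
    (fun i => u i - c * (x i / ‖x‖))
  have e1 : ∑ i, mixed h i x * (u i - c * (x i / ‖x‖)) = ∑ i, mixed h i x * u i := by
    have : ∑ i, mixed h i x * (u i - c * (x i / ‖x‖)) =
        (∑ i, mixed h i x * u i) - c / ‖x‖ * ∑ i, mixed h i x * x i := by
      simp only [Fin.sum_univ_three]
      ring
    rw [this, ht, mul_zero, sub_zero]
  have e2 : ∑ i, (u i - c * (x i / ‖x‖)) ^ 2 = tt x u u := by
    unfold tt
    rw [← hc]
    simp only [Fin.sum_univ_three] at hu hc ⊢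
    linear_combination c ^ 2 * hu + 2 * c * hc
  rw [e1, e2] at h1
  exact h1

/-- `2 |b|² ≤ |h|² - h(n,n)² - (tr_S h)² / 2` (the difference is `|h°|²`). -/
theorem b2_le {h : E → Matrix (Fin 3) (Fin 3) ℝ} (hx : x ≠ 0) (hs : ∀ i j, h x i j = h x j i) :
    2 * b2 h x ≤ transverse h x := by
  have hr : ‖x‖ ≠ 0 := norm_ne_zero_iff.2 hx
  have hu := sum_unit hx
  have ht := mixed_tangential h hx
  set n : Fin 3 → ℝ := fun i => x i / ‖x‖ with hn
  set A := hrad h x with hA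
  set q := qq h x with hq
  set b : Fin 3 → ℝ := fun i => mixed h i x with hb
  have hbn : ∑ i, b i * n i = 0 := by
    have : ∑ i, b i * n i = (∑ i, mixed h i x * x i) / ‖x‖ := by
      rw [Finset.sum_div]
      exact Finset.sum_congr rfl fun i _ => by simp only [hb, hn]; ring
    rw [this, ht, zero_div]
  have hv : ∀ i, ∑ j, h x i j * n j = b i + A * n i := by
    intro i
    simp only [hb, hn, mixed]
    ring
  have hqe : q = ∑ i, h x i i - A := rfl
  have h1 : 0 ≤ ∑ i, ∑ j, (h x i j - A * (n i * n j) - q / 2 * (kd i j - n i * n j) -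
      (b i * n j + n i * b j)) ^ 2 :=
    Finset.sum_nonneg fun i _ => Finset.sum_nonneg fun j _ => sq_nonneg _
  have hb2 : b2 h x = ∑ i, b i ^ 2 := rfl
  unfold transverse
  rw [hb2]
  have h2 : ∑ i, ∑ j, (h x i j - A * (n i * n j) - q / 2 * (kd i j - n i * n j) -
      (b i * n j + n i * b j)) ^ 2 =
      ∑ i, ∑ j, (h x i j) ^ 2 - A ^ 2 - q ^ 2 / 2 - 2 * ∑ i, b i ^ 2 := by
    have v0 := hv 0
    have v1 := hv 1
    have v2 := hv 2
    have hu' : ∑ i, n i ^ 2 = 1 := hu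
    simp only [Fin.sum_univ_three] at hu' hbn v0 v1 v2 hqe ⊢
    rw [hs 1 0, hs 2 0, hs 2 1] at *
    simp only [kd]
    simp only [if_true, Fin.reduceEq, if_false]
    generalize n 0 = n0 at *
    generalize n 1 = n1 at *
    generalize n 2 = n2 at *
    generalize b 0 = b0 at *
    generalize b 1 = b1 at *
    generalize b 2 = b2' at *
    generalize h x 0 0 = h00 at *
    generalize h x 0 1 = h01 at *
    generalize h x 0 2 = h02 at *
    generalize h x 1 1 = h11 at *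
    generalize h x 1 2 = h12 at *
    generalize h x 2 2 = h22 at *
    linear_combination (-2 * ((A - q / 2) * n0 + 2 * b0)) * v0 +
      (-2 * ((A - q / 2) * n1 + 2 * b1)) * v1 + (-2 * ((A - q / 2) * n2 + 2 * b2')) * v2 +
      q * hqe + ((n0 ^ 2 + n1 ^ 2 + n2 ^ 2 - 1) * (A - q / 2) ^ 2 +
        2 * (b0 ^ 2 + b1 ^ 2 + b2' ^ 2)) * hu' +
      (-6 * A + 3 * q + 2 * (b0 * n0 + b1 * n1 + b2' * n2) + 4 * A * (n0 ^ 2 + n1 ^ 2 + n2 ^ 2) -
        2 * q * (n0 ^ 2 + n1 ^ 2 + n2 ^ 2)) * hbn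
  linarith

/-- The condition on `tr_S h` makes the quadratic form nonnegative, whatever `β` and `h°` are. -/
theorem QQ_nonneg {h : E → Matrix (Fin 3) (Fin 3) ℝ} (H : Tensor h) (hx : x ≠ 0)
    (hN : DifferentiableAt ℝ N x) (h0 : 0 < N x)
    (hc : tdot (fun y => mcS N y * qq h y) (fun y => mcS N y * qq h y) x ≤
      tdot (fun y => (mcS N y) ^ 2) (fun y => (mcS N y) ^ 2) x) : 0 ≤ QQ N h x := by
  have hr : 0 < ‖x‖ := norm_pos_iff.2 hx
  have hH : 0 < mcS N x := by unfold mcS; positivity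
  rw [tdot_Hq H hx hN h0, tdot_HH hx hN h0] at hc
  set u : Fin 3 → ℝ := fun i => pd i (qq h) x - qq h x * pd i (logN N) x with hu
  set T := tdot (logN N) (logN N) x with hT
  have hc' : tt x u u ≤ 4 * (mcS N x) ^ 2 * T := by
    have h1 : 0 < (mcS N x) ^ 2 := by positivity
    refine le_of_mul_le_mul_left ?_ h1
    calc (mcS N x) ^ 2 * tt x u u ≤ 4 * (mcS N x) ^ 4 * T := hc
      _ = (mcS N x) ^ 2 * (4 * (mcS N x) ^ 2 * T) := by ring
  have hB : 0 ≤ b2 h x := Finset.sum_nonneg fun i _ => sq_nonneg _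
  have hcs := bdot_sq h hx u
  have e1 : ∑ i, mixed h i x * u i = bdot h (qq h) x - qq h x * bdot h (logN N) x := by
    unfold bdot
    rw [Finset.mul_sum, ← Finset.sum_sub_distrib]
    exact Finset.sum_congr rfl fun i _ => by simp only [hu]; ring
  rw [e1] at hcs
  set Z := bdot h (qq h) x - qq h x * bdot h (logN N) x with hZ
  have h2 : Z ^ 2 ≤ b2 h x * (4 * (mcS N x) ^ 2 * T) :=
    hcs.trans (mul_le_mul_of_nonneg_left hc' hB)
  have hT0 : 0 ≤ T := by
    have h3 : 0 ≤ tt x u u := by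
      have := Finset.sum_nonneg (s := Finset.univ) (f := fun i => (u i - (∑ j, (x j / ‖x‖) * u j) *
        (x i / ‖x‖)) ^ 2) fun i _ => sq_nonneg _
      have hun := sum_unit hx
      have e2 : ∑ i, (u i - (∑ j, (x j / ‖x‖) * u j) * (x i / ‖x‖)) ^ 2 = tt x u u := by
        unfold tt
        set c := ∑ j, (x j / ‖x‖) * u j with hcc
        simp only [Fin.sum_univ_three] at hun hcc ⊢
        linear_combination c ^ 2 * hun + 2 * c * hcc
      rwa [e2] at this
    have h4 : 0 ≤ 4 * (mcS N x) ^ 2 * T := h3.trans hc'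
    exact nonneg_of_mul_nonneg_right h4 (by positivity)
  -- `(r / 2) |Z| ≤ b2 / N² + T`
  have h3 : (‖x‖ / 2 * Z) ^ 2 ≤ (b2 h x / (N x) ^ 2 + T) ^ 2 := by
    have e3 : (‖x‖ / 2) ^ 2 * (b2 h x * (4 * (mcS N x) ^ 2 * T)) =
        4 * (b2 h x / (N x) ^ 2) * T := by
      unfold mcS
      field_simp
    have h5 : (‖x‖ / 2 * Z) ^ 2 ≤ 4 * (b2 h x / (N x) ^ 2) * T := by
      rw [mul_pow, ← e3]
      exact mul_le_mul_of_nonneg_left h2 (by positivity)
    nlinarith [sq_nonneg (b2 h x / (N x) ^ 2 - T)]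
  have h6 : 0 ≤ b2 h x / (N x) ^ 2 + T := by positivity
  have h7 := (abs_le_of_sq_le_sq' h3 h6).2
  have h8 := b2_le hx (H.symm x hx)
  unfold QQ
  have e4 : ‖x‖ / 2 * (qq h x * bdot h (logN N) x - bdot h (qq h) x) = -(‖x‖ / 2 * Z) := by
    rw [hZ]; ring
  rw [e4, ← hT]
  linarith

/-- The matter term is nonnegative. -/
theorem matter_nonneg {h : E → Matrix (Fin 3) (Fin 3) ℝ} (hx : x ≠ 0) (h0 : 0 < N x)
    (dec : momentumNorm (qs N) h x ≤ energy (qs N) h x)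
    (flux : |qq h x| ≤ mcS N x ∨ qq h x * JN N h x ≤ 0) :
    0 ≤ ‖x‖ ^ 2 * energy (qs N) h x - ‖x‖ ^ 3 / 2 * qq h x * (N x * JN N h x) := by
  have hr : 0 < ‖x‖ := norm_pos_iff.2 hx
  have h1 := (JN_le h hx h0).trans dec
  have h2 : 0 ≤ energy (qs N) h x := (abs_nonneg _).trans h1
  rcases flux with h3 | h3
  · have h4 : ‖x‖ * N x / 2 * |qq h x| ≤ 1 := by
      unfold mcS at h3
      rw [le_div_iff₀ (by positivity)] at h3
      linarith
    have h5 : ‖x‖ ^ 3 / 2 * qq h x * (N x * JN N h x) ≤ ‖x‖ ^ 2 * |JN N h x| := by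
      calc ‖x‖ ^ 3 / 2 * qq h x * (N x * JN N h x) =
          ‖x‖ ^ 2 * (‖x‖ * N x / 2 * (qq h x * JN N h x)) := by ring
        _ ≤ ‖x‖ ^ 2 * (‖x‖ * N x / 2 * (|qq h x| * |JN N h x|)) := by
          have : qq h x * JN N h x ≤ |qq h x| * |JN N h x| := by
            rw [← abs_mul]; exact le_abs_self _
          gcongr
        _ = ‖x‖ ^ 2 * ((‖x‖ * N x / 2 * |qq h x|) * |JN N h x|) := by ring
        _ ≤ ‖x‖ ^ 2 * (1 * |JN N h x|) := by gcongr
        _ = ‖x‖ ^ 2 * |JN N h x| := by ring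
    have h6 : ‖x‖ ^ 2 * |JN N h x| ≤ ‖x‖ ^ 2 * energy (qs N) h x := by gcongr
    linarith
  · have h4 : ‖x‖ ^ 3 / 2 * qq h x * (N x * JN N h x) ≤ 0 := by
      have e : ‖x‖ ^ 3 / 2 * qq h x * (N x * JN N h x) =
          (‖x‖ ^ 3 / 2 * N x) * (qq h x * JN N h x) := by ring
      rw [e]
      exact mul_nonpos_of_nonneg_of_nonpos (by positivity) h3
    have h5 : 0 ≤ ‖x‖ ^ 2 * energy (qs N) h x := by positivity
    linarith

end Pool.Agent.J4.H62.QS
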