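import Pool.Agent.J4.H62.QS.Asy
import Pool.Agent.J4.H62.PI.Ext2

/-!
# Quasi-spherical metrics given on an end only
-/

set_option autoImplicit false

namespace Pool.Agent.J4.H62.QS

open Pool.Agent.K4H63.PI
open Pool.Agent.J4.H62.PI (cut cut_smooth cut_nonneg cut_le_one cut_zero cut_one exth exth_eq
  exth_tensor TensorFrom DecayFar decay_of_far admFlux_congr energy_congr momentumNorm_congr
  momentum_congr far_nhds hrad_congr qq_congr)
open scoped BigOperators Topology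
open Matrix Filter Set MeasureTheory

/-- The lapse function is positive and `C²` on `{|x| > a}`. -/
structure LapseFrom (a : ℝ) (N : E → ℝ) : Prop where
  smooth : ContDiffOn ℝ 2 N {x : E | a < ‖x‖}
  pos : ∀ x : E, a < ‖x‖ → 0 < N x

/-- The extended lapse. -/
noncomputable def extN (a b : ℝ) (N : E → ℝ) (x : E) : ℝ :=
  cut a b ‖x‖ * N x + (1 - cut a b ‖x‖)

theorem extN_eq {a b : ℝ} (hab : a < b) (N : E → ℝ) {x : E} (hx : b ≤ ‖x‖) :
    extN a b N x = N x := by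
  unfold extN
  rw [cut_one hab hx]
  ring

theorem extN_lapse {r₀ a b : ℝ} (h1 : r₀ < a) (hab : a < b) {N : E → ℝ} (hN : LapseFrom r₀ N) :
    Lapse (extN a b N) := by
  constructor
  · intro x hx
    refine ContDiffAt.contDiffWithinAt ?_
    have hx0 : x ≠ 0 := hx
    by_cases hxa : ‖x‖ < a
    · have : extN a b N =ᶠ[𝓝 x] fun _ => (1 : ℝ) := by
        filter_upwards [(isOpen_lt continuous_norm continuous_const).mem_nhds hxa] with y hy
        unfold extN
        rw [cut_zero hab (le_of_lt hy)]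
        ring
      exact contDiffAt_const.congr_of_eventuallyEq this
    · have h2 : r₀ < ‖x‖ := h1.trans_le (not_lt.1 hxa)
      have hh : ContDiffAt ℝ 2 N x := hN.smooth.contDiffAt
        ((isOpen_lt continuous_const continuous_norm).mem_nhds h2)
      have hc : ContDiffAt ℝ 2 (fun y : E => cut a b ‖y‖) x :=
        (cut_smooth a b).contDiffAt.comp x (contDiffAt_norm ℝ hx0)
      exact (hc.mul hh).add (contDiffAt_const.sub hc)
  · intro x _
    by_cases h : ‖x‖ ≤ a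
    · unfold extN
      rw [cut_zero hab h]
      norm_num
    · have h3 := hN.pos x (h1.trans (not_le.1 h))
      have h4 := cut_nonneg a b ‖x‖
      have h5 := cut_le_one a b ‖x‖
      unfold extN
      rcases eq_or_lt_of_le h4 with h6 | h6
      · rw [← h6]; norm_num
      · have : 0 < cut a b ‖x‖ * N x := mul_pos h6 h3
        linarith

section

variable {b : ℝ} {N N' : E → ℝ} {h h' : E → Matrix (Fin 3) (Fin 3) ℝ}

theorem qs_ev' (e1 : ∀ x : E, b ≤ ‖x‖ → N' x = N x) {x : E} (hx : b < ‖x‖) :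
    qs N' =ᶠ[𝓝 x] qs N := by
  filter_upwards [far_nhds hx] with y hy
  unfold qs
  rw [e1 y (le_of_lt hy)]

theorem h_ev' (e2 : ∀ x : E, b ≤ ‖x‖ → h' x = h x) {x : E} (hx : b < ‖x‖) : h' =ᶠ[𝓝 x] h :=
  Pool.Agent.J4.H62.PI.h_ev e2 hx

theorem fun_ev {α : Type} {F F' : E → α} (e : ∀ x : E, b ≤ ‖x‖ → F' x = F x) {x : E}
    (hx : b < ‖x‖) : F' =ᶠ[𝓝 x] F := by
  filter_upwards [far_nhds hx] with y hy
  exact e y (le_of_lt hy)

theorem mcS_congr (e1 : ∀ x : E, b ≤ ‖x‖ → N' x = N x) {x : E} (hx : b ≤ ‖x‖) :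
    mcS N' x = mcS N x := by
  unfold mcS
  rw [e1 x hx]

theorem JN_congr (e1 : ∀ x : E, b ≤ ‖x‖ → N' x = N x) (e2 : ∀ x : E, b ≤ ‖x‖ → h' x = h x) {x : E}
    (hx : b < ‖x‖) : JN N' h' x = JN N h x := by
  unfold JN
  rw [e1 x hx.le]
  simp only [momentum_congr (qs_ev' e1 hx) (h_ev' e2 hx)]

theorem tdot_congr {F F' G G' : E → ℝ} {x : E} (hF : F' =ᶠ[𝓝 x] F) (hG : G' =ᶠ[𝓝 x] G) :
    tdot F' G' x = tdot F G x := by
  unfold tdot dr
  simp only [pd_congr hF, pd_congr hG]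

theorem mixed_congr {x : E} (e : h' x = h x) (i : Fin 3) : mixed h' i x = mixed h i x := by
  unfold mixed
  rw [hrad_congr e, e]

theorem QQ_congr (e1 : ∀ x : E, b ≤ ‖x‖ → N' x = N x) (e2 : ∀ x : E, b ≤ ‖x‖ → h' x = h x) {x : E}
    (hx : b < ‖x‖) : QQ N' h' x = QQ N h x := by
  have el : logN N' =ᶠ[𝓝 x] logN N := fun_ev (fun y hy => by unfold logN; rw [e1 y hy]) hx
  have eq' : qq h' =ᶠ[𝓝 x] qq h := fun_ev (fun y hy => qq_congr (e2 y hy)) hx
  unfold QQ b2 bdot transverse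
  simp only [mixed_congr (e2 x hx.le), e1 x hx.le, tdot_congr el el, pd_congr el, pd_congr eq',
    qq_congr (e2 x hx.le), hrad_congr (e2 x hx.le), e2 x hx.le]

theorem avg_congr {F F' : E → ℝ} (e : ∀ x : E, b ≤ ‖x‖ → F' x = F x) {r : ℝ} (h0 : 0 < r)
    (hr : b ≤ r) : sphAvg F' r = sphAvg F r :=
  sphAvg_congr fun w hw => e _ (by rw [ray_norm hw h0]; exact hr)

theorem trapped_congr (e1 : ∀ x : E, b ≤ ‖x‖ → N' x = N x) (e2 : ∀ x : E, b ≤ ‖x‖ → h' x = h x)
    {r : ℝ} (h0 : 0 < r) (hr : b ≤ r) : Trapped N' h' r ↔ Trapped N h r := by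
  unfold Trapped
  rw [avg_congr (F' := fun x => (mcS N' x) ^ 2) (F := fun x => (mcS N x) ^ 2)
    (fun x hx => by rw [mcS_congr e1 hx]) h0 hr,
    avg_congr (F' := fun x => (qq h' x) ^ 2) (F := fun x => (qq h x) ^ 2)
    (fun x hx => by rw [qq_congr (e2 x hx)]) h0 hr]

theorem condAt_congr (e1 : ∀ x : E, b ≤ ‖x‖ → N' x = N x) (e2 : ∀ x : E, b ≤ ‖x‖ → h' x = h x)
    {r : ℝ} (h0 : 0 < r) (hr : b < r) : CondAt N' h' r ↔ CondAt N h r := by
  have hx : ∀ w : E, ‖w‖ = 1 → b < ‖r • w‖ := fun w hw => by rw [ray_norm hw h0]; exact hr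
  unfold CondAt
  refine or_congr ?_ ?_
  · refine forall_congr' fun w => forall_congr' fun hw => ?_
    have t1 : (fun y => mcS N' y * qq h' y) =ᶠ[𝓝 (r • w)] fun y => mcS N y * qq h y :=
      fun_ev (fun y hy => by rw [mcS_congr e1 hy, qq_congr (e2 y hy)]) (hx w hw)
    have t2 : (fun y => (mcS N' y) ^ 2) =ᶠ[𝓝 (r • w)] fun y => (mcS N y) ^ 2 :=
      fun_ev (fun y hy => by rw [mcS_congr e1 hy]) (hx w hw)
    rw [tdot_congr t1 t1, tdot_congr t2 t2]
  · have : sphAvg (QQ N' h') r = sphAvg (QQ N h) r :=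
      sphAvg_congr fun w hw => QQ_congr e1 e2 (hx w hw)
    rw [this]

end

theorem exists_ext {a r₁ m : ℝ} (ha : 0 ≤ a) (hr : a < r₁) {N : E → ℝ}
    {h : E → Matrix (Fin 3) (Fin 3) ℝ} (hN : LapseFrom a N) (hh : TensorFrom a h)
    (flat : FlatQS N m) (decay : DecayFar h) :
    ∃ (b : ℝ) (N' : E → ℝ) (h' : E → Matrix (Fin 3) (Fin 3) ℝ), a < b ∧ b < r₁ ∧ Lapse N' ∧
      Tensor h' ∧ FlatQS N' m ∧ Decay h' ∧ (∀ x : E, b ≤ ‖x‖ → N' x = N x) ∧
      (∀ x : E, b ≤ ‖x‖ → h' x = h x) := by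
  obtain ⟨c, hc1, hc2⟩ := exists_between hr
  obtain ⟨b, hb1, hb2⟩ := exists_between hc2
  have H : Tensor (exth c b h) := exth_tensor ha hc1 hb1 hh.symm hh.smooth
  have h0b : 0 ≤ b := ha.trans (hc1.trans hb1).le
  refine ⟨b, extN c b N, exth c b h, hc1.trans hb1, hb2, extN_lapse hc1 hb1 hN, H,
    ⟨?_, ?_⟩, ?_, fun x hx => extN_eq hb1 N hx, fun x hx => exth_eq hb1 h hx⟩
  · obtain ⟨C, R, hC⟩ := flat.decay
    refine ⟨C, max R b, fun x hx => ?_⟩
    rw [extN_eq hb1 N ((le_max_right _ _).trans hx)]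
    exact hC x ((le_max_left _ _).trans hx)
  · refine flat.mass.congr' ?_
    filter_upwards [eventually_gt_atTop b] with r hr
    refine admFlux_congr h0b (fun x hx => ?_) hr
    unfold qs
    rw [extN_eq hb1 N hx.le]
  · refine decay_of_far H ?_
    obtain ⟨C, R, hC⟩ := decay
    refine ⟨C, max R b, fun x hx i j => ?_⟩
    rw [exth_eq hb1 h ((le_max_right _ _).trans hx)]
    exact hC x ((le_max_left _ _).trans hx) i j

/-- The radius `r` is outside the outermost centred sphere which is trapped on average. -/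
def Outside (N : E → ℝ) (h : E → Matrix (Fin 3) (Fin 3) ℝ) (r : ℝ) : Prop :=
  ∀ s, r ≤ s → ¬ Trapped N h s

theorem end_trapped {a m : ℝ} (ha : 0 ≤ a) {N : E → ℝ} {h : E → Matrix (Fin 3) (Fin 3) ℝ}
    (hN : LapseFrom a N) (hh : TensorFrom a h) (flat : FlatQS N m) (decay : DecayFar h)
    {r₁ : ℝ} (hr₁ : a < r₁) (trapped : Trapped N h r₁)
    (dec : ∀ x : E, r₁ < ‖x‖ → Outside N h ‖x‖ → momentumNorm (qs N) h x ≤ energy (qs N) h x)
    (flux : ∀ x : E, r₁ < ‖x‖ → Outside N h ‖x‖ → |qq h x| ≤ mcS N x ∨ qq h x * JN N h x ≤ 0)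
    (cond : ∀ r, r₁ < r → Outside N h r → CondAt N h r) : r₁ ≤ 2 * m := by
  obtain ⟨b, N', h', hab, hb1, L, H, flat', decay', e1, e2⟩ := exists_ext ha hr₁ hN hh flat decay
  have h0 : 0 < r₁ := ha.trans_lt hr₁
  have hO : ∀ r, r₁ < r → (∀ s, r ≤ s → ¬ Trapped N' h' s) → Outside N h r := by
    intro r hr hu s hs
    have h1 : r₁ < s := hr.trans_le hs
    exact fun ht => hu s hs ((trapped_congr e1 e2 (h0.trans h1) (hb1.trans h1).le).2 ht)
  refine core_trapped L H flat' decay' h0 ((trapped_congr e1 e2 h0 hb1.le).2 trapped) ?_ ?_ ?_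
  · intro r hr hu w hw
    have hr0 := h0.trans hr
    have hn := ray_norm hw hr0
    have hx : b < ‖r • w‖ := by rw [hn]; exact hb1.trans hr
    rw [momentumNorm_congr (qs_ev' e1 hx) (h_ev' e2 hx), energy_congr (qs_ev' e1 hx) (h_ev' e2 hx)]
    exact dec _ (by rw [hn]; exact hr) (by rw [hn]; exact hO r hr hu)
  · intro r hr hu w hw
    have hr0 := h0.trans hr
    have hn := ray_norm hw hr0
    have hx : b < ‖r • w‖ := by rw [hn]; exact hb1.trans hr
    rw [qq_congr (e2 _ hx.le), mcS_congr e1 hx.le, JN_congr e1 e2 hx]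
    exact flux _ (by rw [hn]; exact hr) (by rw [hn]; exact hO r hr hu)
  · intro r hr hu
    exact (condAt_congr e1 e2 (h0.trans hr) (hb1.trans hr)).2 (cond r hr (hO r hr hu))

theorem end_untrapped {a m : ℝ} (ha : 0 ≤ a) {N : E → ℝ} {h : E → Matrix (Fin 3) (Fin 3) ℝ}
    (hN : LapseFrom a N) (hh : TensorFrom a h) (flat : FlatQS N m) (decay : DecayFar h)
    (un : ∀ r, a < r → ¬ Trapped N h r)
    (dec : ∀ x : E, a < ‖x‖ → Outside N h ‖x‖ → momentumNorm (qs N) h x ≤ energy (qs N) h x)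
    (flux : ∀ x : E, a < ‖x‖ → Outside N h ‖x‖ → |qq h x| ≤ mcS N x ∨ qq h x * JN N h x ≤ 0)
    (cond : ∀ r, a < r → Outside N h r → CondAt N h r) {r₁ : ℝ} (hr₁ : a < r₁) :
    r₁ - r₁ ^ 3 / 4 * sphAvg (fun x => (mcS N x) ^ 2) r₁ ≤ 2 * m := by
  obtain ⟨b, N', h', hab, hb1, L, H, flat', decay', e1, e2⟩ := exists_ext ha hr₁ hN hh flat decay
  have h0 : 0 < r₁ := ha.trans_lt hr₁
  have hO : ∀ r, r₁ < r → Outside N h r := fun r hr s hs => un s (hr₁.trans (hr.trans_le hs))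
  have h3 : sphAvg (fun x => (mcS N x) ^ 2) r₁ = sphAvg (fun x => (mcS N' x) ^ 2) r₁ :=
    (avg_congr (F' := fun x => (mcS N' x) ^ 2) (F := fun x => (mcS N x) ^ 2)
      (fun x hx => by rw [mcS_congr e1 hx]) h0 hb1.le).symm
  rw [h3]
  refine core_untrapped L H flat' decay' h0 (fun r hr ht => un r (hr₁.trans hr)
    ((trapped_congr e1 e2 (h0.trans hr) (hb1.trans hr).le).1 ht)) ?_ ?_ ?_
  · intro r hr hu w hw
    have hr0 := h0.trans hr
    have hn := ray_norm hw hr0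
    have hx : b < ‖r • w‖ := by rw [hn]; exact hb1.trans hr
    rw [momentumNorm_congr (qs_ev' e1 hx) (h_ev' e2 hx), energy_congr (qs_ev' e1 hx) (h_ev' e2 hx)]
    exact dec _ (by rw [hn]; exact hr₁.trans hr) (by rw [hn]; exact hO r hr)
  · intro r hr hu w hw
    have hr0 := h0.trans hr
    have hn := ray_norm hw hr0
    have hx : b < ‖r • w‖ := by rw [hn]; exact hb1.trans hr
    rw [qq_congr (e2 _ hx.le), mcS_congr e1 hx.le, JN_congr e1 e2 hx]
    exact flux _ (by rw [hn]; exact hr₁.trans hr) (by rw [hn]; exact hO r hr)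
  · intro r hr hu
    exact (condAt_congr e1 e2 (h0.trans hr) (hb1.trans hr)).2 (cond r (hr₁.trans hr) (hO r hr))

end Pool.Agent.J4.H62.QS
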