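import Pool.Agent.J4.H62.QS.Mom
import Pool.Agent.J4.H62.PI.Ext

/-!
# Quasi-spherical metrics `N² dr² + r² dσ²`: the divergence identity for the scalar curvature
-/

set_option autoImplicit false

namespace Pool.Agent.J4.H62.QS

open Pool.Agent.K4H63.PI
open scoped BigOperators Topology
open Matrix Filter Set

section

variable {f : E → ℝ} {x : E}

/-- The tangential gradient of `log (1 + f |x|²) / 2`. -/
noncomputable def Vf (f : E → ℝ) (i : Fin 3) (y : E) : ℝ :=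
  1 / 2 * (W f y * (R2 y * pd i f y - Dd f y * y i))

theorem Vf_pd (hf : ContDiffAt ℝ 2 f x) (h0 : 1 + f x * R2 x ≠ 0) (i : Fin 3) :
    HasPd (Vf f i) (fun m => 1 / 2 * (W f x * ((R2 x * pd m (pd i f) x + pd i f x * (2 * x m)) -
      (Dd f x * kd m i + x i * (pd m f x + ∑ l, x l * pd m (pd l f) x))) +
      (R2 x * pd i f x - Dd f x * x i) *
        (-((W f x) ^ 2) * (f x * (2 * x m) + R2 x * pd m f x)))) x := by
  have J := Jet.of_contDiffAt hf
  exact HasPd.const_mul (1 / 2) ((W_pd J.one h0).mul (((R2_pd x).mul (J.two i)).sub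
    ((Dd_pd J).mul (HasPd.coord i x))))

theorem sumV_alg (x p : Fin 3 → ℝ) (P : Fin 3 → Fin 3 → ℝ) (f w D ρ g2 L E' : ℝ)
    (hD : D = ∑ i, x i * p i) (hρ : ρ = ∑ i, x i * x i) (hg : g2 = ∑ i, p i * p i)
    (hL : L = ∑ i, P i i) (hE : E' = ∑ i, ∑ j, x i * x j * P i j) :
    (∑ i, (1 / 2 * (w * (ρ * p i - D * x i))) ^ 2) +
      ∑ i, 1 / 2 * (w * ((ρ * P i i + p i * (2 * x i)) -
        (D * kd i i + x i * (p i + ∑ l, x l * P i l))) +
        (ρ * p i - D * x i) * (-(w ^ 2) * (f * (2 * x i) + ρ * p i))) =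
    1 / 4 * w ^ 2 * (ρ ^ 2 * g2 - ρ * D ^ 2) +
      1 / 2 * (w * (ρ * L - 2 * D - E') - w ^ 2 * ρ * (ρ * g2 - D ^ 2)) := by
  rw [hD, hρ, hg, hL, hE]
  simp only [Fin.sum_univ_three]
  simp only [kd]
  simp only [if_true]
  ring

/-- The divergence identity. -/
theorem lapA (hf : ContDiffAt ℝ 2 f x) (h0 : 1 + f x * R2 x ≠ 0) :
    R2 x * (scal (mf f) x / 2 + (∑ i, (Vf f i x) ^ 2) + ∑ i, pd i (Vf f i) x) =
      1 - W f x - ∑ i, x i * pd i (W f) x := by
  have hw : W f x * (1 + f x * R2 x) = 1 := inv_mul_cancel₀ h0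
  have J := Jet.of_contDiffAt hf
  have hD : Dd f x = ∑ i, x i * pd i f x := by unfold Dd; rw [Fin.sum_univ_three]
  have hR : R2 x = ∑ i, x i * x i := by unfold R2; rw [Fin.sum_univ_three]
  have h1 := sumV_alg (fun l => x l) (fun l => pd l f x) (fun m l => pd m (pd l f) x) (f x) (W f x)
    (Dd f x) (R2 x) _ _ _ hD hR rfl rfl rfl
  have e1 : (∑ i, (Vf f i x) ^ 2) + ∑ i, pd i (Vf f i) x =
      1 / 4 * (W f x) ^ 2 * ((R2 x) ^ 2 * (∑ i, pd i f x * pd i f x) - R2 x * (Dd f x) ^ 2) +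
      1 / 2 * (W f x * (R2 x * (∑ i, pd i (pd i f) x) - 2 * Dd f x -
        ∑ i, ∑ j, x i * x j * pd i (pd j f) x) -
        (W f x) ^ 2 * R2 x * (R2 x * (∑ i, pd i f x * pd i f x) - (Dd f x) ^ 2)) := by
    rw [← h1]
    simp only [(Vf_pd hf h0 _).eq]
    rfl
  have e2 : ∑ i, x i * pd i (W f) x =
      -((W f x) ^ 2) * (2 * f x * R2 x + R2 x * Dd f x) := by
    simp only [(W_pd J.one h0).eq]
    rw [hD, hR]
    simp only [Fin.sum_univ_three]
    ring
  rw [e2, add_assoc, e1, scal_mf hf h0]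
  generalize (∑ i, pd i f x * pd i f x) = g2
  generalize (∑ i, pd i (pd i f) x) = L
  generalize (∑ i, ∑ j, x i * x j * pd i (pd j f) x) = E'
  linear_combination hw

theorem nsq_mf (h : E → Matrix (Fin 3) (Fin 3) ℝ) (h0 : 1 + f x * R2 x ≠ 0)
    (hs : ∀ i j, h x i j = h x j i) :
    nsq (mf f) h x = (∑ i, ∑ j, (h x i j) ^ 2) - 2 * (f x * W f x) * (∑ i, (∑ j, h x i j * x j) ^ 2) +
      (f x * W f x) ^ 2 * (hxx h x) ^ 2 := by
  unfold nsq hxx
  rw [mf_inv f h0]
  simp only [mfi, Matrix.of_apply, Fin.sum_univ_three]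
  simp only [kd]
  simp only [if_true, Fin.reduceEq, if_false]
  rw [hs 1 0, hs 2 0, hs 2 1]
  ring

/-- The square of the norm of the mixed part. -/
noncomputable def b2 (h : E → Matrix (Fin 3) (Fin 3) ℝ) (x : E) : ℝ := ∑ i, (mixed h i x) ^ 2

theorem hxx_eq (h : E → Matrix (Fin 3) (Fin 3) ℝ) (hx : x ≠ 0) : hxx h x = R2 x * hrad h x := by
  have hr : ‖x‖ ≠ 0 := norm_ne_zero_iff.2 hx
  rw [R2_eq]
  unfold hxx hrad
  rw [Finset.mul_sum]
  refine Finset.sum_congr rfl fun i _ => ?_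
  rw [Finset.mul_sum]
  refine Finset.sum_congr rfl fun j _ => ?_
  field_simp

theorem hv_eq (h : E → Matrix (Fin 3) (Fin 3) ℝ) (hx : x ≠ 0) (i : Fin 3) :
    ∑ j, h x i j * x j = ‖x‖ * mixed h i x + hrad h x * x i := by
  have hr : ‖x‖ ≠ 0 := norm_ne_zero_iff.2 hx
  unfold mixed
  have e : ∑ j, h x i j * x j = ‖x‖ * ∑ j, h x i j * (x j / ‖x‖) := by
    rw [Finset.mul_sum]
    refine Finset.sum_congr rfl fun j _ => ?_
    field_simp
  rw [e]
  field_simp
  ring

theorem hv_sq (h : E → Matrix (Fin 3) (Fin 3) ℝ) (hx : x ≠ 0) :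
    ∑ i, (∑ j, h x i j * x j) ^ 2 = R2 x * (b2 h x + (hrad h x) ^ 2) := by
  have hr : ‖x‖ ≠ 0 := norm_ne_zero_iff.2 hx
  have ht := mixed_tangential h hx
  have hn := norm_sq_eq x
  simp only [hv_eq h hx]
  unfold b2
  rw [R2_eq]
  simp only [Fin.sum_univ_three] at ht ⊢
  linear_combination 2 * ‖x‖ * hrad h x * ht - (hrad h x) ^ 2 * hn

/-- The energy density of `(δ + f x ⊗ x, h)`. -/
theorem energy_mf (h : E → Matrix (Fin 3) (Fin 3) ℝ) (hx : x ≠ 0) (h0 : 1 + f x * R2 x ≠ 0)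
    (hs : ∀ i j, h x i j = h x j i) :
    energy (mf f) h x = scal (mf f) x / 2 + (qq h x) ^ 2 / 4 + W f x * hrad h x * qq h x -
      transverse h x / 2 + (1 - W f x) * b2 h x := by
  have hw : W f x * (1 + f x * R2 x) = 1 := inv_mul_cancel₀ h0
  have hw2 : f x * W f x * R2 x = 1 - W f x := by linear_combination hw
  unfold energy
  rw [nsq_mf h h0 hs, trg_mf h h0, hv_sq h hx, hxx_eq h hx]
  have ht : tr0 h x = hrad h x + qq h x := by unfold qq; ring
  rw [ht]
  unfold transverse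
  have e1 : f x * W f x * (R2 x * hrad h x) = (1 - W f x) * hrad h x := by rw [← hw2]; ring
  have e2 : (f x * W f x) ^ 2 * (R2 x * hrad h x) ^ 2 = ((1 - W f x) * hrad h x) ^ 2 := by
    rw [← hw2]; ring
  have e3 : 2 * (f x * W f x) * (R2 x * (b2 h x + (hrad h x) ^ 2)) =
      2 * (1 - W f x) * (b2 h x + (hrad h x) ^ 2) := by rw [← hw2]; ring
  rw [e1, e2, e3]
  ring

/-- The radial momentum in terms of the mixed part. -/
theorem rad_mf' {h : E → Matrix (Fin 3) (Fin 3) ℝ} (H : Tensor h) (hx : x ≠ 0)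
    (hf : ContDiffAt ℝ 2 f x) (h0 : 1 + f x * R2 x ≠ 0) :
    ∑ j, (x j / ‖x‖) * momentum (mf f) h j x =
      divMixed h x + (∑ i, mixed h i x * Vf f i x) + 2 * W f x * hrad h x / ‖x‖ - qq h x / ‖x‖ -
        dr (qq h) x := by
  have hr : ‖x‖ ≠ 0 := norm_ne_zero_iff.2 hx
  have hw : W f x * (1 + f x * R2 x) = 1 := inv_mul_cancel₀ h0
  have hs : ∀ᶠ y in 𝓝 x, ∀ i j, h y i j = h y j i := by
    filter_upwards [eventually_ne_zero hx] with y hy
    exact H.symm y hy
  have h1 := rad_mf hf h0 (fun i j => H.diff hx i j) hs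
  have e1 : ∑ j, (x j / ‖x‖) * momentum (mf f) h j x =
      (∑ j, x j * momentum (mf f) h j x) / ‖x‖ := by
    rw [Finset.sum_div]
    exact Finset.sum_congr rfl fun j _ => by ring
  have e2 : ∑ i, ∑ j, x j * pd i (fun y => h y i j) x =
      ‖x‖ * ∑ i, ∑ j, (x j / ‖x‖) * pd i (fun y => h y i j) x := by
    rw [Finset.mul_sum]
    refine Finset.sum_congr rfl fun i _ => ?_
    rw [Finset.mul_sum]
    refine Finset.sum_congr rfl fun j _ => ?_
    field_simp
  have e3 : ∑ m, ∑ i, x m * pd m (fun y => h y i i) x = ‖x‖ * dr (tr0 h) x := by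
    unfold dr
    rw [Finset.mul_sum]
    refine Finset.sum_congr rfl fun m _ => ?_
    rw [(tr0_pd (fun i j => H.diff hx i j)).eq, ← Finset.mul_sum]
    field_simp
  have e4 : ∑ i, ∑ j, h x i j * (x i * pd j f x) =
      ‖x‖ * (∑ j, mixed h j x * pd j f x) + hrad h x * Dd f x := by
    rw [Finset.sum_comm]
    have : ∀ j, ∑ i, h x i j * (x i * pd j f x) =
        (‖x‖ * mixed h j x + hrad h x * x j) * pd j f x := by
      intro j
      rw [← hv_eq h hx j, Finset.sum_mul]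
      refine Finset.sum_congr rfl fun i _ => ?_
      rw [H.symm x hx i j]
      ring
    simp only [this]
    unfold Dd
    simp only [Fin.sum_univ_three]
    ring
  have e5 : ∑ i, mixed h i x * Vf f i x =
      1 / 2 * W f x * R2 x * ∑ j, mixed h j x * pd j f x := by
    have ht := mixed_tangential h hx
    unfold Vf
    simp only [Fin.sum_univ_three] at ht ⊢
    linear_combination (-(1 / 2) * W f x * Dd f x) * ht
  have hq : dr (qq h) x = dr (tr0 h) x - dr (hrad h) x := by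
    unfold dr
    rw [← Finset.sum_sub_distrib]
    refine Finset.sum_congr rfl fun i _ => ?_
    rw [show qq h = fun y => tr0 h y - hrad h y from rfl, pd_sub (H.tr_diff hx) (H.hrad_diff hx)]
    ring
  have hw2 : f x * W f x * ‖x‖ ^ 2 = 1 - W f x := by
    rw [← R2_eq]
    linear_combination hw
  rw [e1, h1, e2, e3, e4, e5, hxx_eq h hx, divMixed_eq H hx, hq, R2_eq]
  unfold qq
  field_simp
  linear_combination (-4 * hrad h x) * hw2

end

end Pool.Agent.J4.H62.QS
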