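import Pool.Agent.J4.H62.QS.LapA
import Pool.Agent.K4H63.PI.Main3

/-!
# Quasi-spherical metrics `N² dr² + r² dσ²`
-/

set_option autoImplicit false

namespace Pool.Agent.J4.H62.QS

open Pool.Agent.K4H63.PI
open scoped BigOperators Topology
open Matrix Filter Set MeasureTheory

/-- The metric `N² dr² + r² dσ²` in Cartesian coordinates, `dσ²` the round metric of the unit
sphere. -/
noncomputable def qs (N : E → ℝ) (x : E) : Matrix (Fin 3) (Fin 3) ℝ :=
  Matrix.of fun i j => (if i = j then 1 else 0) + ((N x) ^ 2 - 1) * (x i / ‖x‖) * (x j / ‖x‖)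

/-- `(N² - 1) / |x|²`. -/
noncomputable def fN (N : E → ℝ) (y : E) : ℝ := ((N y) ^ 2 - 1) / R2 y

/-- `log N`. -/
noncomputable def logN (N : E → ℝ) (y : E) : ℝ := Real.log (N y)

variable {N : E → ℝ} {x : E}

theorem R2_pos (hx : x ≠ 0) : 0 < R2 x := by
  rw [R2_eq]
  have := norm_pos_iff.2 hx
  positivity

theorem qs_eq (hx : x ≠ 0) : qs N x = mf (fN N) x := by
  have hr : ‖x‖ ≠ 0 := norm_ne_zero_iff.2 hx
  ext i j
  simp only [qs, mf, Matrix.of_apply, fN, R2_eq, kd]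
  field_simp

theorem qs_ev (hx : x ≠ 0) : qs N =ᶠ[𝓝 x] mf (fN N) := by
  filter_upwards [eventually_ne_zero hx] with y hy
  exact qs_eq hy

theorem one_add (hx : x ≠ 0) : 1 + fN N x * R2 x = (N x) ^ 2 := by
  have := (R2_pos hx).ne'
  unfold fN
  field_simp
  ring

theorem one_add_ne (hx : x ≠ 0) (hN : 0 < N x) : 1 + fN N x * R2 x ≠ 0 := by
  rw [one_add hx]
  positivity

theorem W_eq (hx : x ≠ 0) : W (fN N) x = ((N x) ^ 2)⁻¹ := by
  unfold W
  rw [one_add hx]

theorem fN_contDiffAt (hx : x ≠ 0) (hN : ContDiffAt ℝ 2 N x) : ContDiffAt ℝ 2 (fN N) x := by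
  have h1 : ContDiffAt ℝ 2 R2 x := by
    have : R2 = fun y : E => ‖y‖ ^ 2 := by funext y; exact R2_eq y
    rw [this]
    exact (contDiff_norm_sq ℝ).contDiffAt
  exact ((hN.pow 2).sub contDiffAt_const).div h1 (R2_pos hx).ne'

theorem logN_pd (hN : DifferentiableAt ℝ N x) (h0 : 0 < N x) :
    HasPd (logN N) (fun m => (N x)⁻¹ * pd m N x) x :=
  HasPd.comp (F := N) (c := Real.log) ⟨hN, fun _ => rfl⟩ (Real.hasDerivAt_log h0.ne')

/-- The derivative of `log N` in terms of `f = (N² - 1) / |x|²`. -/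
theorem logN_f (hx : x ≠ 0) (hN : ContDiffAt ℝ 2 N x) (h0 : 0 < N x) (m : Fin 3) :
    pd m (logN N) x = 1 / 2 * (W (fN N) x * (fN N x * (2 * x m) + R2 x * pd m (fN N) x)) := by
  have hd := hN.differentiableAt (by norm_num : (2 : WithTop ℕ∞) ≠ 0)
  have J := Jet.of_contDiffAt (fN_contDiffAt hx hN)
  have h1 := (HasPd.const 1 x).add (J.one.mul (R2_pd x))
  have h2 : HasPd N (fun m => pd m N x) x := ⟨hd, fun _ => rfl⟩
  have h3 := h2.mul h2
  have h4 : (fun y => N y * N y) =ᶠ[𝓝 x] fun y => 1 + fN N y * R2 y := by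
    filter_upwards [eventually_ne_zero hx] with y hy
    rw [one_add hy]
    ring
  have h5 := h3.eq m
  rw [pd_congr h4, h1.eq] at h5
  rw [(logN_pd hd h0).eq, W_eq hx]
  simp only at h5
  field_simp
  linear_combination -h5

/-- The tangential gradient of `log N`. -/
theorem Vf_eq (hx : x ≠ 0) (hN : ContDiffAt ℝ 2 N x) (h0 : 0 < N x) (i : Fin 3) :
    Vf (fN N) i x = pd i (logN N) x - dr (logN N) x * (x i / ‖x‖) := by
  have hr : ‖x‖ ≠ 0 := norm_ne_zero_iff.2 hx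
  have hn := norm_sq_eq x
  unfold Vf dr Dd
  simp only [logN_f hx hN h0, Fin.sum_univ_three]
  rw [R2_eq]
  field_simp
  linear_combination (-(W (fN N) x * fN N x * 2 * x i)) * hn

/-- The metric determines the scalar curvature etc. -/
theorem scal_qs (hx : x ≠ 0) : scal (qs N) x = scal (mf (fN N)) x :=
  Pool.Agent.J4.H62.PI.scal_congr (qs_ev hx)

theorem energy_qs (h : E → Matrix (Fin 3) (Fin 3) ℝ) (hx : x ≠ 0) :
    energy (qs N) h x = energy (mf (fN N)) h x :=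
  Pool.Agent.J4.H62.PI.energy_congr (qs_ev hx) (EventuallyEq.refl _ _)

theorem momentum_qs (h : E → Matrix (Fin 3) (Fin 3) ℝ) (hx : x ≠ 0) (j : Fin 3) :
    momentum (qs N) h j x = momentum (mf (fN N)) h j x :=
  Pool.Agent.J4.H62.PI.momentum_congr (qs_ev hx) (EventuallyEq.refl _ _) j

/-- The mean curvature `H = 2 / (r N)` of the centred sphere through `x`. -/
noncomputable def mcS (N : E → ℝ) (x : E) : ℝ := 2 / (‖x‖ * N x)

/-- The component `J(ν)` of the momentum density along the unit normal `ν = N⁻¹ ∂_r` of the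
centred spheres. -/
noncomputable def JN (N : E → ℝ) (h : E → Matrix (Fin 3) (Fin 3) ℝ) (x : E) : ℝ :=
  (∑ k, momentum (qs N) h k x * (x k / ‖x‖)) / N x

theorem JN_le (h : E → Matrix (Fin 3) (Fin 3) ℝ) (hx : x ≠ 0) (h0 : 0 < N x) :
    |JN N h x| ≤ momentumNorm (qs N) h x := by
  have hr : 0 < ‖x‖ := norm_pos_iff.2 hx
  have h1 := one_add_ne (N := N) hx h0
  have hw := W_eq (N := N) hx
  have hf : fN N x * W (fN N) x * R2 x = 1 - ((N x) ^ 2)⁻¹ := by
    rw [← hw]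
    have : W (fN N) x * (1 + fN N x * R2 x) = 1 := inv_mul_cancel₀ h1
    linear_combination this
  unfold momentumNorm
  apply Real.abs_le_sqrt
  rw [qs_eq hx, mf_inv _ h1]
  simp only [mfi, Matrix.of_apply]
  set M : Fin 3 → ℝ := fun k => momentum (qs N) h k x with hM
  have hcs : (∑ k, M k * (x k / ‖x‖)) ^ 2 ≤ ∑ k, (M k) ^ 2 := by
    have h2 := Finset.sum_mul_sq_le_sq_mul_sq Finset.univ M (fun j => x j / ‖x‖)
    rwa [sum_unit hx, mul_one] at h2
  have e1 : ∑ i, ∑ j, (kd i j - fN N x * W (fN N) x * (x i * x j)) * M i * M j =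
      (∑ k, (M k) ^ 2) - (1 - ((N x) ^ 2)⁻¹) * (∑ k, M k * (x k / ‖x‖)) ^ 2 := by
    rw [← hf, R2_eq]
    simp only [Fin.sum_univ_three]
    simp only [kd]
    simp only [if_true, Fin.reduceEq, if_false]
    field_simp
    ring
  have e2 : (JN N h x) ^ 2 = ((N x) ^ 2)⁻¹ * (∑ k, M k * (x k / ‖x‖)) ^ 2 := by
    unfold JN
    rw [div_pow, div_eq_mul_inv, mul_comm]
  have e3 : ∑ i, ∑ j, (kd i j - fN N x * W (fN N) x * (x i * x j)) * momentum (qs N) h i x *
      momentum (qs N) h j x = ∑ i, ∑ j, (kd i j - fN N x * W (fN N) x * (x i * x j)) * M i * M j :=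
    rfl
  rw [e3, e1, e2]
  linarith

/-! ### the pointwise identity -/

/-- The inner product of the tangential gradients. -/
noncomputable def tdot (F G : E → ℝ) (x : E) : ℝ := (∑ i, pd i F x * pd i G x) - dr F x * dr G x

/-- The pairing of the mixed part with a gradient. -/
noncomputable def bdot (h : E → Matrix (Fin 3) (Fin 3) ℝ) (F : E → ℝ) (x : E) : ℝ :=
  ∑ i, mixed h i x * pd i F x

/-- `|β|² + |h°|² / 2 + |∇ log N|² + ⟨β, (tr_S h) ∇ log N - ∇ tr_S h⟩ / H` (tangential gradients). -/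
noncomputable def QQ (N : E → ℝ) (h : E → Matrix (Fin 3) (Fin 3) ℝ) (x : E) : ℝ :=
  b2 h x / (N x) ^ 2 + (transverse h x - 2 * b2 h x) / 2 + tdot (logN N) (logN N) x +
    ‖x‖ / 2 * (qq h x * bdot h (logN N) x - bdot h (qq h) x)

theorem sumV_sq (hx : x ≠ 0) (hN : ContDiffAt ℝ 2 N x) (h0 : 0 < N x) :
    ∑ i, (Vf (fN N) i x) ^ 2 = tdot (logN N) (logN N) x := by
  have hu := sum_unit hx
  have hdr : dr (logN N) x = ∑ i, (x i / ‖x‖) * pd i (logN N) x := rfl
  unfold tdot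
  simp only [Vf_eq hx hN h0]
  simp only [Fin.sum_univ_three] at hu hdr ⊢
  linear_combination (dr (logN N) x) ^ 2 * hu + 2 * dr (logN N) x * hdr

theorem bdotV (h : E → Matrix (Fin 3) (Fin 3) ℝ) (hx : x ≠ 0) (hN : ContDiffAt ℝ 2 N x)
    (h0 : 0 < N x) : ∑ i, mixed h i x * Vf (fN N) i x = bdot h (logN N) x := by
  have hr : ‖x‖ ≠ 0 := norm_ne_zero_iff.2 hx
  have ht := mixed_tangential h hx
  unfold bdot
  simp only [Vf_eq hx hN h0]
  have e : ∑ i, mixed h i x * (pd i (logN N) x - dr (logN N) x * (x i / ‖x‖)) =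
      (∑ i, mixed h i x * pd i (logN N) x) - dr (logN N) x / ‖x‖ * ∑ i, mixed h i x * x i := by
    simp only [Fin.sum_univ_three]
    ring
  rw [e, ht, mul_zero, sub_zero]

/-- The divergence of `(tr_S h) b`. -/
theorem div_qb {h : E → Matrix (Fin 3) (Fin 3) ℝ} (H : Tensor h) (hx : x ≠ 0) :
    ∑ i, pd i (fun y => qq h y * mixed h i y) x = qq h x * divMixed h x + bdot h (qq h) x := by
  have h1 : ∀ i, DifferentiableAt ℝ (mixed h i) x := fun i =>
    ((mixed_contDiffOn H i).contDiffAt (isOpen_compl_singleton.mem_nhds hx)).differentiableAt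
      (by norm_num)
  simp only [fun i => pd_mul (H.qq_diff hx) (h1 i) i]
  unfold divMixed bdot
  rw [Finset.sum_add_distrib, ← Finset.mul_sum]

/-- The pointwise identity behind the monotonicity. -/
theorem point_id {h : E → Matrix (Fin 3) (Fin 3) ℝ} (H : Tensor h) (hx : x ≠ 0)
    (hN : ContDiffAt ℝ 2 N x) (h0 : 0 < N x) :
    1 - W (fN N) x - ‖x‖ * dr (W (fN N)) x + 3 / 4 * ‖x‖ ^ 2 * (qq h x) ^ 2 +
      ‖x‖ ^ 3 / 2 * (qq h x * dr (qq h) x) =
    ‖x‖ ^ 2 * energy (qs N) h x - ‖x‖ ^ 3 / 2 * qq h x * (N x * JN N h x) +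
      ‖x‖ ^ 2 * QQ N h x + ‖x‖ ^ 2 * (∑ i, pd i (Vf (fN N) i) x) +
      ‖x‖ ^ 3 / 2 * ∑ i, pd i (fun y => qq h y * mixed h i y) x := by
  have hr : ‖x‖ ≠ 0 := norm_ne_zero_iff.2 hx
  have h1 := one_add_ne (N := N) hx h0
  have hf := fN_contDiffAt hx hN
  have e1 := lapA hf h1
  have e2 : ‖x‖ * dr (W (fN N)) x = ∑ i, x i * pd i (W (fN N)) x := by
    unfold dr
    rw [Finset.mul_sum]
    refine Finset.sum_congr rfl fun i _ => ?_
    field_simp
  have e3 : N x * JN N h x = ∑ j, (x j / ‖x‖) * momentum (mf (fN N)) h j x := by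
    unfold JN
    rw [mul_div_cancel₀ _ h0.ne']
    refine Finset.sum_congr rfl fun j _ => ?_
    rw [momentum_qs h hx]
    ring
  have hW : W (fN N) x = ((N x) ^ 2)⁻¹ := W_eq hx
  rw [rad_mf' H hx hf h1, bdotV h hx hN h0] at e3
  rw [sumV_sq hx hN h0, R2_eq] at e1
  rw [energy_qs h hx, energy_mf h hx h1 (H.symm x hx), e3, e2, div_qb H hx]
  unfold QQ
  have e5 : b2 h x / (N x) ^ 2 = W (fN N) x * b2 h x := by
    rw [hW]
    field_simp
  rw [e5]
  have e6 : ∑ i, x i * pd i (W (fN N)) x = 1 - W (fN N) x - ‖x‖ ^ 2 *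
      (scal (mf (fN N)) x / 2 + tdot (logN N) (logN N) x + ∑ i, pd i (Vf (fN N) i) x) := by
    linear_combination e1
  rw [e6]
  field_simp
  ring

end Pool.Agent.J4.H62.QS
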