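import Pool.Agent.J4.H62.QS.Scal2

/-!
# Metrics `δ + f x ⊗ x`: momentum density
-/

set_option autoImplicit false

namespace Pool.Agent.J4.H62.QS

open Pool.Agent.K4H63.PI
open scoped BigOperators Topology
open Matrix Filter Set

/-! ### algebra -/

/-- The contraction of the covariant derivative of `h`, paired with `x`. -/
theorem m1 (x p : Fin 3 → ℝ) (h : Fin 3 → Fin 3 → ℝ) (hs : ∀ i j, h i j = h j i)
    (H : Fin 3 → Fin 3 → Fin 3 → ℝ) (Hs : ∀ m i j, H m i j = H m j i) (f w D ρ X Y : ℝ)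
    (hD : D = ∑ i, x i * p i) (hρ : ρ = ∑ i, x i * x i)
    (hX : X = ∑ i, ∑ j, h i j * (x i * x j)) (hY : Y = ∑ i, ∑ j, h i j * (x i * p j)) :
    ∑ j, x j * ∑ i, ∑ k, (kd i k - f * w * (x i * x k)) *
      (H i k j - (∑ l, (x l * (w * bb x p f D i k) - 1 / 2 * (p l * (x i * x k))) * h l j) -
        ∑ l, (x l * (w * bb x p f D i j) - 1 / 2 * (p l * (x i * x j))) * h k l) =
    (∑ i, ∑ j, x j * H i i j) - f * w * (∑ i, ∑ j, ∑ k, x i * (x j * x k) * H i j k) -
      w * ((D + 3 * f + 1 / 2 * (f * D * ρ)) -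
        f * w * (D * ρ + f * ρ + 1 / 2 * (f * D * ρ ^ 2))) * X +
      1 / 2 * (ρ - f * w * ρ ^ 2) * Y -
      (1 / 2 * w * ρ * (Y - f * w * D * X) + w * (1 / 2 * D + f + 1 / 2 * (f * D * ρ)) *
        (X - f * w * ρ * X) - 1 / 2 * ρ * (Y - f * w * ρ * Y)) := by
  rw [hD, hρ, hX, hY]
  unfold bb
  simp only [Fin.sum_univ_three]
  simp only [kd]
  simp only [if_true, Fin.reduceEq, if_false]
  rw [hs 1 0, hs 2 0, hs 2 1, Hs 0 1 0, Hs 0 2 0, Hs 0 2 1, Hs 1 1 0, Hs 1 2 0, Hs 1 2 1,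
    Hs 2 1 0, Hs 2 2 0, Hs 2 2 1]
  ring

section

variable {f : E → ℝ} {x : E}

theorem compat (hf : DifferentiableAt ℝ f x) (h0 : 1 + f x * R2 x ≠ 0) (i k j : Fin 3) :
    pd i (fun y => mf f y k j) x - ∑ l, chr (mf f) l i k x * mf f x l j -
      ∑ l, chr (mf f) l i j x * mf f x k l = 0 := by
  have hw : W f x * (1 + f x * R2 x) = 1 := inv_mul_cancel₀ h0
  unfold R2 at hw
  rw [pd_mf hf]
  simp only [chr_mf hf h0, aa_eq, mf, Matrix.of_apply, Fin.sum_univ_three]
  have a1 : kd j 0 * x 0 + kd j 1 * x 1 + kd j 2 * x 2 = x j := kd_sum j (fun l => x l)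
  have a2 : kd k 0 * x 0 + kd k 1 * x 1 + kd k 2 * x 2 = x k := kd_sum k (fun l => x l)
  have a3 : kd j 0 * pd 0 f x + kd j 1 * pd 1 f x + kd j 2 * pd 2 f x = pd j f x :=
    kd_sum j (fun l => pd l f x)
  have a4 : kd k 0 * pd 0 f x + kd k 1 * pd 1 f x + kd k 2 * pd 2 f x = pd k f x :=
    kd_sum k (fun l => pd l f x)
  have hD : Dd f x = x 0 * pd 0 f x + x 1 * pd 1 f x + x 2 * pd 2 f x := rfl
  rw [kd_symm 0 j, kd_symm 1 j, kd_symm 2 j]
  set bik := bb (fun l => x l) (fun l => pd l f x) (f x) (Dd f x) i k with hbik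
  set bij := bb (fun l => x l) (fun l => pd l f x) (f x) (Dd f x) i j with hbij
  have e1 : bik = 1 / 2 * (pd i f x * x k + pd k f x * x i) + f x * kd i k +
      1 / 2 * (f x * Dd f x * (x i * x k)) := rfl
  have e2 : bij = 1 / 2 * (pd i f x * x j + pd j f x * x i) + f x * kd i j +
      1 / 2 * (f x * Dd f x * (x i * x j)) := rfl
  linear_combination -(W f x * bik) * a1 - W f x * bij * a2 + 1 / 2 * (x i * x k) * a3 +
    1 / 2 * (x i * x j) * a4 - x j * bik * hw - x k * bij * hw - x j * e1 - x k * e2 -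
    f x * (x i * x j * x k) * hD

/-- Inverse matrix identity. -/
theorem inv_mul_mf (h0 : 1 + f x * R2 x ≠ 0) (i j : Fin 3) :
    ∑ k, mfi f x i k * mf f x k j = kd i j := by
  have hw : W f x * (1 + f x * R2 x) = 1 := inv_mul_cancel₀ h0
  unfold R2 at hw
  rw [Fin.sum_univ_three]
  simp only [mf, mfi, Matrix.of_apply]
  have k0 : kd i 0 * kd 0 j + kd i 1 * kd 1 j + kd i 2 * kd 2 j = kd i j := by
    fin_cases i <;> fin_cases j <;> simp [kd]
  have k1 : kd i 0 * x 0 + kd i 1 * x 1 + kd i 2 * x 2 = x i := kd_sum i (fun l => x l)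
  have k2 : kd j 0 * x 0 + kd j 1 * x 1 + kd j 2 * x 2 = x j := kd_sum j (fun l => x l)
  rw [kd_symm 0 j, kd_symm 1 j, kd_symm 2 j] at *
  linear_combination k0 + f x * x j * k1 - f x * W f x * x i * k2 - f x * x i * x j * hw

/-- `h(x, x)`. -/
noncomputable def hxx (h : E → Matrix (Fin 3) (Fin 3) ℝ) (y : E) : ℝ :=
  ∑ i, ∑ j, h y i j * (y i * y j)

theorem trg_mf (h : E → Matrix (Fin 3) (Fin 3) ℝ) (h0 : 1 + f x * R2 x ≠ 0) :
    trg (mf f) h x = tr0 h x - f x * W f x * hxx h x := by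
  unfold trg tr0 hxx
  rw [mf_inv f h0]
  simp only [mfi, Matrix.of_apply, Fin.sum_univ_three]
  simp only [kd]
  simp only [if_true, Fin.reduceEq, if_false]
  ring

/-- The covariant derivative of `h`. -/
noncomputable def covh (f : E → ℝ) (h : E → Matrix (Fin 3) (Fin 3) ℝ) (i k j : Fin 3) (x : E) : ℝ :=
  pd i (fun y => h y k j) x - (∑ l, chr (mf f) l i k x * h x l j) -
    ∑ l, chr (mf f) l i j x * h x k l

theorem cov_mf {h : E → Matrix (Fin 3) (Fin 3) ℝ} (hf : DifferentiableAt ℝ f x)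
    (h0 : 1 + f x * R2 x ≠ 0) (hh : ∀ i j, DifferentiableAt ℝ (fun y => h y i j) x)
    (ht : DifferentiableAt ℝ (trg (mf f) h) x) (i k j : Fin 3) :
    cov (mf f) (fun y => h y - trg (mf f) h y • mf f y) i k j x =
      covh f h i k j x - pd i (trg (mf f) h) x * mf f x k j := by
  have hm : ∀ k j, DifferentiableAt ℝ (fun y => mf f y k j) x := by
    intro k j
    have h1 : HasPd f (fun m => pd m f x) x := ⟨hf, fun _ => rfl⟩
    exact ((HasPd.const (kd k j) x).add (h1.mul ((HasPd.coord k x).mul (HasPd.coord j x)))).diff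
  have h1 : pd i (fun y => (h y - trg (mf f) h y • mf f y) k j) x =
      pd i (fun y => h y k j) x - (trg (mf f) h x * pd i (fun y => mf f y k j) x +
        mf f x k j * pd i (trg (mf f) h) x) := by
    have e : (fun y => (h y - trg (mf f) h y • mf f y) k j) =
        fun y => h y k j - trg (mf f) h y * mf f y k j := by
      funext y
      simp [Matrix.sub_apply, Matrix.smul_apply]
    rw [e, pd_sub (hh k j) (ht.fun_mul (hm k j)), pd_mul ht (hm k j)]
  have hc := compat hf h0 i k j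
  unfold cov covh
  rw [h1]
  simp only [Matrix.sub_apply, Matrix.smul_apply, smul_eq_mul, Fin.sum_univ_three] at hc ⊢
  linear_combination (-(trg (mf f) h x)) * hc

theorem momentum_mf {h : E → Matrix (Fin 3) (Fin 3) ℝ} (hf : DifferentiableAt ℝ f x)
    (h0 : 1 + f x * R2 x ≠ 0) (hh : ∀ i j, DifferentiableAt ℝ (fun y => h y i j) x)
    (ht : DifferentiableAt ℝ (trg (mf f) h) x) (j : Fin 3) :
    momentum (mf f) h j x =
      (∑ i, ∑ k, mfi f x i k * covh f h i k j x) - pd j (trg (mf f) h) x := by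
  unfold momentum
  rw [mf_inv f h0]
  simp only [cov_mf hf h0 hh ht]
  have h1 : ∑ i, pd i (trg (mf f) h) x * ∑ k, mfi f x i k * mf f x k j =
      pd j (trg (mf f) h) x := by
    simp only [inv_mul_mf h0]
    have := kd_sum j (fun l => pd l (trg (mf f) h) x)
    rw [Fin.sum_univ_three, kd_symm 0 j, kd_symm 1 j, kd_symm 2 j]
    linear_combination this
  rw [← h1]
  simp only [Fin.sum_univ_three]
  ring

theorem hxx_pd {h : E → Matrix (Fin 3) (Fin 3) ℝ}
    (hh : ∀ i j, DifferentiableAt ℝ (fun y => h y i j) x) :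
    HasPd (hxx h) (fun m => ∑ i, ∑ j, (h x i j * (x i * kd m j + x j * kd m i) +
      x i * x j * pd m (fun y => h y i j) x)) x := by
  have h1 : ∀ i j, HasPd (fun y : E => h y i j * (y i * y j))
      (fun m => h x i j * (x i * kd m j + x j * kd m i) + x i * x j * pd m (fun y => h y i j) x) x :=
    fun i j => HasPd.mul (F := fun y => h y i j) (F' := fun m => pd m (fun y => h y i j) x)
      ⟨hh i j, fun _ => rfl⟩ ((HasPd.coord i x).mul (HasPd.coord j x))
  refine ⟨?_, fun m => ?_⟩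
  · unfold hxx
    exact DifferentiableAt.fun_sum fun i _ => DifferentiableAt.fun_sum fun j _ => (h1 i j).diff
  · unfold hxx
    rw [pd_sum (F := fun i y => ∑ j, h y i j * (y i * y j))
      (fun i => DifferentiableAt.fun_sum fun j _ => (h1 i j).diff)]
    refine Finset.sum_congr rfl fun i _ => ?_
    rw [pd_sum (F := fun j y => h y i j * (y i * y j)) (fun j => (h1 i j).diff)]
    exact Finset.sum_congr rfl fun j _ => (h1 i j).eq m

theorem tr0_pd {h : E → Matrix (Fin 3) (Fin 3) ℝ}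
    (hh : ∀ i j, DifferentiableAt ℝ (fun y => h y i j) x) :
    HasPd (tr0 h) (fun m => ∑ i, pd m (fun y => h y i i) x) x := by
  refine ⟨?_, fun m => ?_⟩
  · unfold tr0
    exact DifferentiableAt.fun_sum fun i _ => hh i i
  · unfold tr0
    rw [pd_sum (F := fun i y => h y i i) (fun i => hh i i)]

theorem trg_pd {h : E → Matrix (Fin 3) (Fin 3) ℝ} (hf : ContDiffAt ℝ 2 f x)
    (h0 : 1 + f x * R2 x ≠ 0) (hh : ∀ i j, DifferentiableAt ℝ (fun y => h y i j) x) :
    HasPd (trg (mf f) h) (fun m => (∑ i, pd m (fun y => h y i i) x) -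
      (f x * W f x * (∑ i, ∑ j, (h x i j * (x i * kd m j + x j * kd m i) +
      x i * x j * pd m (fun y => h y i j) x)) + hxx h x * (f x *
        (-((W f x) ^ 2) * (f x * (2 * x m) + R2 x * pd m f x)) + W f x * pd m f x))) x := by
  have J := Jet.of_contDiffAt hf
  have h1 := (tr0_pd hh).sub ((J.one.mul (W_pd J.one h0)).mul (hxx_pd hh))
  have h2 : trg (mf f) h =ᶠ[𝓝 x] fun y => tr0 h y - f y * W f y * hxx h y := by
    filter_upwards [near_mf hf h0] with y hy
    exact trg_mf h hy.2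
  exact h1.congr h2

/-- The algebra for the trace term. -/
theorem m2 (x p : Fin 3 → ℝ) (h : Fin 3 → Fin 3 → ℝ) (hs : ∀ i j, h i j = h j i)
    (H : Fin 3 → Fin 3 → Fin 3 → ℝ) (Hs : ∀ m i j, H m i j = H m j i) (f w D ρ X : ℝ)
    (hD : D = ∑ i, x i * p i) (hρ : ρ = ∑ i, x i * x i)
    (hX : X = ∑ i, ∑ j, h i j * (x i * x j)) :
    ∑ m, x m * ((∑ i, H m i i) - (f * w * (∑ i, ∑ j, (h i j * (x i * kd m j + x j * kd m i) +
      x i * x j * H m i j)) + X * (f *
        (-(w ^ 2) * (f * (2 * x m) + ρ * p m)) + w * p m))) =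
    (∑ m, ∑ i, x m * H m i i) - (w * D + f * (-(w ^ 2) * (f * (2 * ρ) + ρ * D))) * X -
      f * w * ((∑ i, ∑ j, ∑ k, x i * (x j * x k) * H i j k) + 2 * X) := by
  rw [hD, hρ, hX]
  simp only [Fin.sum_univ_three]
  simp only [kd]
  simp only [if_true, Fin.reduceEq, if_false]
  rw [hs 1 0, hs 2 0, hs 2 1, Hs 0 1 0, Hs 0 2 0, Hs 0 2 1, Hs 1 1 0, Hs 1 2 0, Hs 1 2 1,
    Hs 2 1 0, Hs 2 2 0, Hs 2 2 1]
  ring

theorem m3 (f w D ρ X Y : ℝ) (hw : w * (1 + f * ρ) = 1) :
    -w * ((D + 3 * f + 1 / 2 * (f * D * ρ)) -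
        f * w * (D * ρ + f * ρ + 1 / 2 * (f * D * ρ ^ 2))) * X +
      1 / 2 * (ρ - f * w * ρ ^ 2) * Y -
      (1 / 2 * w * ρ * (Y - f * w * D * X) + w * (1 / 2 * D + f + 1 / 2 * (f * D * ρ)) *
        (X - f * w * ρ * X) - 1 / 2 * ρ * (Y - f * w * ρ * Y)) +
      (w * D + f * (-(w ^ 2) * (f * (2 * ρ) + ρ * D))) * X + f * w * (2 * X) =
    1 / 2 * ρ * w * Y - w * X * (2 * f + 1 / 2 * D) := by
  have h0 : 1 + f * ρ ≠ 0 := by
    intro h
    rw [h, mul_zero] at hw
    exact zero_ne_one hw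
  have hw' : w = 1 / (1 + f * ρ) := by
    field_simp
    linarith
  rw [hw']
  field_simp
  ring

/-- The radial component of the momentum density. -/
theorem rad_mf {h : E → Matrix (Fin 3) (Fin 3) ℝ} (hf : ContDiffAt ℝ 2 f x)
    (h0 : 1 + f x * R2 x ≠ 0) (hh : ∀ i j, DifferentiableAt ℝ (fun y => h y i j) x)
    (hs : ∀ᶠ y in 𝓝 x, ∀ i j, h y i j = h y j i) :
    ∑ j, x j * momentum (mf f) h j x =
      (∑ i, ∑ j, x j * pd i (fun y => h y i j) x) - (∑ m, ∑ i, x m * pd m (fun y => h y i i) x) +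
      1 / 2 * R2 x * W f x * (∑ i, ∑ j, h x i j * (x i * pd j f x)) -
      W f x * hxx h x * (2 * f x + 1 / 2 * Dd f x) := by
  have hw : W f x * (1 + f x * R2 x) = 1 := inv_mul_cancel₀ h0
  have hfd := hf.differentiableAt (by norm_num : (2 : WithTop ℕ∞) ≠ 0)
  have hD : Dd f x = ∑ i, x i * pd i f x := by unfold Dd; rw [Fin.sum_univ_three]
  have hR : R2 x = ∑ i, x i * x i := by unfold R2; rw [Fin.sum_univ_three]
  have ht := trg_pd hf h0 hh
  have hs0 := hs.self_of_nhds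
  have Hs : ∀ m i j, pd m (fun y => h y i j) x = pd m (fun y => h y j i) x := by
    intro m i j
    refine pd_congr ?_ m
    filter_upwards [hs] with y hy
    exact hy i j
  have e1 := m1 (fun l => x l) (fun l => pd l f x) (fun i j => h x i j) hs0
    (fun m i j => pd m (fun y => h y i j) x) Hs (f x) (W f x) (Dd f x) (R2 x) (hxx h x) _
    hD hR rfl rfl
  have e2 := m2 (fun l => x l) (fun l => pd l f x) (fun i j => h x i j) hs0
    (fun m i j => pd m (fun y => h y i j) x) Hs (f x) (W f x) (Dd f x) (R2 x) (hxx h x)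
    hD hR rfl
  have e3 := m3 (f x) (W f x) (Dd f x) (R2 x) (hxx h x)
    (∑ i, ∑ j, h x i j * (x i * pd j f x)) hw
  have e4 : ∑ j, x j * momentum (mf f) h j x =
      (∑ j, x j * ∑ i, ∑ k, mfi f x i k * covh f h i k j x) -
        ∑ j, x j * pd j (trg (mf f) h) x := by
    rw [← Finset.sum_sub_distrib]
    refine Finset.sum_congr rfl fun j _ => ?_
    rw [momentum_mf hfd h0 hh ht.diff]
    ring
  rw [e4]
  simp only [ht.eq, covh, chr_mf hfd h0, aa_eq, mfi, Matrix.of_apply]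
  simp only at e1 e2
  rw [e1, e2]
  linear_combination e3

end

end Pool.Agent.J4.H62.QS
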