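import Pool.Agent.J4.H62.QS.Core
import Pool.Agent.J4.H92.PI.Jen2

/-!
# Quasi-spherical metrics: monotonicity
-/

set_option autoImplicit false

namespace Pool.Agent.J4.H62.QS

open Pool.Agent.K4H63.PI
open scoped BigOperators Topology
open Matrix Filter Set MeasureTheory

/-- The lapse function is positive and `C²` away from the origin. -/
structure Lapse (N : E → ℝ) : Prop where
  smooth : ContDiffOn ℝ 2 N {0}ᶜ
  pos : ∀ x, x ≠ 0 → 0 < N x

theorem Lapse.at {N : E → ℝ} (L : Lapse N) {x : E} (hx : x ≠ 0) : ContDiffAt ℝ 2 N x :=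
  L.smooth.contDiffAt (isOpen_compl_singleton.mem_nhds hx)

theorem Lapse.diff {N : E → ℝ} (L : Lapse N) {x : E} (hx : x ≠ 0) : DifferentiableAt ℝ N x :=
  (L.at hx).differentiableAt (by norm_num)

theorem pd_smooth {F : E → ℝ} (hF : ContDiffOn ℝ 2 F {0}ᶜ) (i : Fin 3) :
    ContDiffOn ℝ 1 (pd i F) {0}ᶜ := by
  intro x hx
  have h1 : ContDiffAt ℝ 2 F x := hF.contDiffAt (isOpen_compl_singleton.mem_nhds hx)
  have h2 : ContDiffAt ℝ 1 (fderiv ℝ F) x := h1.fderiv_right (by norm_num)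
  exact (h2.clm_apply contDiffAt_const).contDiffWithinAt

variable {N : E → ℝ}

theorem logN_smooth (L : Lapse N) : ContDiffOn ℝ 2 (logN N) {0}ᶜ :=
  L.smooth.log fun x hx => (L.pos x hx).ne'

theorem W_smooth (L : Lapse N) : ContDiffOn ℝ 2 (W (fN N)) {0}ᶜ := by
  have h1 : ContDiffOn ℝ 2 (fun y => ((N y) ^ 2)⁻¹) {0}ᶜ :=
    (L.smooth.pow 2).inv fun x hx => by
      have := L.pos x hx
      positivity
  exact h1.congr fun x hx => W_eq hx

theorem unit_smooth (i : Fin 3) : ContDiffOn ℝ 1 (fun y : E => y i / ‖y‖) {0}ᶜ := fun _ hx =>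
  (unit_contDiffAt hx i).contDiffWithinAt

theorem V_smooth (L : Lapse N) (i : Fin 3) : ContDiffOn ℝ 1 (Vf (fN N) i) {0}ᶜ := by
  have h0 := logN_smooth L
  have h1 : ContDiffOn ℝ 1 (dr (logN N)) {0}ᶜ := by
    unfold dr
    exact ContDiffOn.sum fun j _ => (unit_smooth j).mul (pd_smooth h0 j)
  have h2 := (pd_smooth h0 i).sub (h1.mul (unit_smooth i))
  exact h2.congr fun x hx => Vf_eq hx (L.at hx) (L.pos x hx) i

theorem V_tangential (L : Lapse N) {x : E} (hx : x ≠ 0) : ∑ i, Vf (fN N) i x * x i = 0 := by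
  have hr : ‖x‖ ≠ 0 := norm_ne_zero_iff.2 hx
  have hu := norm_sq_eq x
  have hd : dr (logN N) x * ‖x‖ = ∑ i, x i * pd i (logN N) x := by
    unfold dr
    rw [Finset.sum_mul]
    exact Finset.sum_congr rfl fun i _ => by field_simp
  simp only [Vf_eq hx (L.at hx) (L.pos x hx)]
  simp only [Fin.sum_univ_three] at hd ⊢
  field_simp
  linear_combination (-‖x‖) * hd + dr (logN N) x * hu

theorem qb_smooth {h : E → Matrix (Fin 3) (Fin 3) ℝ} (H : Tensor h) (i : Fin 3) :
    ContDiffOn ℝ 1 (fun y => qq h y * mixed h i y) {0}ᶜ :=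
  H.qq_smooth.mul (mixed_contDiffOn H i)

theorem qb_tangential (h : E → Matrix (Fin 3) (Fin 3) ℝ) {x : E} (hx : x ≠ 0) :
    ∑ i, (qq h x * mixed h i x) * x i = 0 := by
  have := mixed_tangential h hx
  have e : ∑ i, (qq h x * mixed h i x) * x i = qq h x * ∑ i, mixed h i x * x i := by
    rw [Finset.mul_sum]
    exact Finset.sum_congr rfl fun i _ => by ring
  rw [e, this, mul_zero]

theorem sphAvg_div {X : Fin 3 → E → ℝ} (hX : ∀ i, ContDiffOn ℝ 1 (X i) {0}ᶜ)
    (ht : ∀ x, x ≠ 0 → ∑ i, X i x * x i = 0) {r : ℝ} (hr : 0 < r) :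
    sphAvg (fun x => ∑ i, pd i (X i) x) r = 0 := by
  unfold sphAvg
  rw [sphInt_div_eq_zero hX ht hr, mul_zero]

theorem QQ_cont (L : Lapse N) {h : E → Matrix (Fin 3) (Fin 3) ℝ} (H : Tensor h) :
    ContinuousOn (QQ N h) {0}ᶜ := by
  have cN := L.smooth.continuousOn
  have cb : ContinuousOn (b2 h) {0}ᶜ := by
    unfold b2
    exact continuousOn_finsetSum _ fun i _ => (mixed_contDiffOn H i).continuousOn.pow 2
  have cl : ∀ i, ContinuousOn (pd i (logN N)) {0}ᶜ := fun i =>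
    (pd_smooth (logN_smooth L) i).continuousOn
  have cd : ContinuousOn (dr (logN N)) {0}ᶜ := by
    unfold dr
    exact continuousOn_finsetSum _ fun i _ => (unit_cont i).mul (cl i)
  have ct : ContinuousOn (tdot (logN N) (logN N)) {0}ᶜ := by
    unfold tdot
    exact (continuousOn_finsetSum _ fun i _ => (cl i).mul (cl i)).sub (cd.mul cd)
  have cB1 : ContinuousOn (bdot h (logN N)) {0}ᶜ := by
    unfold bdot
    exact continuousOn_finsetSum _ fun i _ => (mixed_contDiffOn H i).continuousOn.mul (cl i)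
  have cB2 : ContinuousOn (bdot h (qq h)) {0}ᶜ := by
    unfold bdot
    exact continuousOn_finsetSum _ fun i _ => (mixed_contDiffOn H i).continuousOn.mul
      (pd_cont H.qq_smooth i)
  unfold QQ
  refine (((cb.div (cN.pow 2) ?_).add ((H.transverse_cont.sub (continuousOn_const.mul cb)).div_const
    _)).add ct).add ((continuous_norm.continuousOn.div_const _).mul
    ((H.qq_smooth.continuousOn.mul cB1).sub cB2))
  intro x hx
  exact pow_ne_zero 2 (L.pos x hx).ne'

/-- The mass function. -/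
noncomputable def mass (N : E → ℝ) (h : E → Matrix (Fin 3) (Fin 3) ℝ) (r : ℝ) : ℝ :=
  r * (1 - sphAvg (W (fN N)) r) + r ^ 3 * sphAvg (fun x => (qq h x) ^ 2) r / 4

theorem dr_sq {h : E → Matrix (Fin 3) (Fin 3) ℝ} (H : Tensor h) {x : E} (hx : x ≠ 0) :
    dr (fun y => (qq h y) ^ 2) x = 2 * (qq h x * dr (qq h) x) := by
  have e : (fun y => (qq h y) ^ 2) = fun y => qq h y * qq h y := by funext y; ring
  unfold dr
  rw [e]
  simp only [fun i => pd_mul (H.qq_diff hx) (H.qq_diff hx) i]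
  simp only [Fin.sum_univ_three]
  ring

/-- The derivative of the mass function is at least `r²` times the average of `QQ`. -/
theorem mass_hasDerivAt (L : Lapse N) {h : E → Matrix (Fin 3) (Fin 3) ℝ} (H : Tensor h) {r : ℝ}
    (hr : 0 < r) :
    ∃ d, HasDerivAt (mass N h) d r ∧ d = sphAvg (fun x => 1 - W (fN N) x - ‖x‖ * dr (W (fN N)) x +
      3 / 4 * ‖x‖ ^ 2 * (qq h x) ^ 2 + ‖x‖ ^ 3 / 2 * (qq h x * dr (qq h) x)) r := by
  have hW1 : ContDiffOn ℝ 1 (W (fN N)) {0}ᶜ := (W_smooth L).of_le (by norm_num)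
  have hq2 : ContDiffOn ℝ 1 (fun x => (qq h x) ^ 2) {0}ᶜ := H.qq_smooth.pow 2
  have d1 := sphAvg_hasDerivAt hW1 hr
  have d2 := sphAvg_hasDerivAt hq2 hr
  have d3 := ((hasDerivAt_id r).mul (d1.const_sub 1)).add
    (((hasDerivAt_id r).fun_pow 3).mul d2 |>.div_const 4)
  have e : sphAvg (dr (fun x => (qq h x) ^ 2)) r =
      2 * sphAvg (fun x => qq h x * dr (qq h) x) r := by
    rw [← sphAvg_mul]
    exact sphAvg_congr fun w hw => dr_sq H (ray_ne hw hr)
  have cW := hW1.continuousOn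
  have cdW := dr_cont hW1
  have cq := H.qq_smooth.continuousOn
  have cdq := dr_cont H.qq_smooth
  have h1 : sphAvg (fun x => 1 - W (fN N) x - ‖x‖ * dr (W (fN N)) x +
      3 / 4 * ‖x‖ ^ 2 * (qq h x) ^ 2 + ‖x‖ ^ 3 / 2 * (qq h x * dr (qq h) x)) r =
      1 - sphAvg (W (fN N)) r - r * sphAvg (dr (W (fN N))) r +
      3 / 4 * r ^ 2 * sphAvg (fun x => (qq h x) ^ 2) r +
      r ^ 3 / 2 * sphAvg (fun x => qq h x * dr (qq h) x) r := by
    rw [sphAvg_congr (G := fun x => (((1 : ℝ) - W (fN N) x) - r * dr (W (fN N)) x +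
      3 / 4 * r ^ 2 * (qq h x) ^ 2) + r ^ 3 / 2 * (qq h x * dr (qq h) x))
      (fun w hw => by rw [ray_norm hw hr])]
    rw [sphAvg_add (F := fun x => ((1 : ℝ) - W (fN N) x) - r * dr (W (fN N)) x +
        3 / 4 * r ^ 2 * (qq h x) ^ 2) (G := fun x => r ^ 3 / 2 * (qq h x * dr (qq h) x))
        (((continuousOn_const.sub cW).sub (continuousOn_const.mul cdW)).add
          (continuousOn_const.mul (cq.pow 2))) (continuousOn_const.mul (cq.mul cdq)) hr,
      sphAvg_add (F := fun x => ((1 : ℝ) - W (fN N) x) - r * dr (W (fN N)) x)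
        (G := fun x => 3 / 4 * r ^ 2 * (qq h x) ^ 2)
        ((continuousOn_const.sub cW).sub (continuousOn_const.mul cdW))
        (continuousOn_const.mul (cq.pow 2)) hr,
      sphAvg_sub (F := fun x => (1 : ℝ) - W (fN N) x) (G := fun x => r * dr (W (fN N)) x)
        (continuousOn_const.sub cW) (continuousOn_const.mul cdW) hr,
      sphAvg_sub (F := fun _ => (1 : ℝ)) (G := W (fN N)) continuousOn_const cW hr,
      sphAvg_const, sphAvg_mul, sphAvg_mul, sphAvg_mul]
  refine ⟨_, d3, ?_⟩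
  rw [h1, e]
  simp only [id]
  ring

theorem mass_deriv_ge (L : Lapse N) {h : E → Matrix (Fin 3) (Fin 3) ℝ} (H : Tensor h) {r : ℝ}
    (hr : 0 < r)
    (dec : ∀ w : E, ‖w‖ = 1 → momentumNorm (qs N) h (r • w) ≤ energy (qs N) h (r • w))
    (flux : ∀ w : E, ‖w‖ = 1 → |qq h (r • w)| ≤ mcS N (r • w) ∨
      qq h (r • w) * JN N h (r • w) ≤ 0) :
    r ^ 2 * sphAvg (QQ N h) r ≤ sphAvg (fun x => 1 - W (fN N) x - ‖x‖ * dr (W (fN N)) x +
      3 / 4 * ‖x‖ ^ 2 * (qq h x) ^ 2 + ‖x‖ ^ 3 / 2 * (qq h x * dr (qq h) x)) r := by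
  have hW1 : ContDiffOn ℝ 1 (W (fN N)) {0}ᶜ := (W_smooth L).of_le (by norm_num)
  have cW := hW1.continuousOn
  have cdW := dr_cont hW1
  have cq := H.qq_smooth.continuousOn
  have cdq := dr_cont H.qq_smooth
  have cn : ContinuousOn (fun x : E => ‖x‖) {0}ᶜ := continuous_norm.continuousOn
  have cQ := QQ_cont L H
  have cV : ContinuousOn (fun x => ∑ i, pd i (Vf (fN N) i) x) {0}ᶜ :=
    continuousOn_finsetSum _ fun i _ => pd_cont (V_smooth L i) i
  have cB : ContinuousOn (fun x => ∑ i, pd i (fun y => qq h y * mixed h i y) x) {0}ᶜ :=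
    continuousOn_finsetSum _ fun i _ => pd_cont (qb_smooth H i) i
  have cL : ContinuousOn (fun x => 1 - W (fN N) x - ‖x‖ * dr (W (fN N)) x +
      3 / 4 * ‖x‖ ^ 2 * (qq h x) ^ 2 + ‖x‖ ^ 3 / 2 * (qq h x * dr (qq h) x)) {0}ᶜ :=
    (((continuousOn_const.sub cW).sub (cn.mul cdW)).add
      ((continuousOn_const.mul (cn.pow 2)).mul (cq.pow 2))).add
      (((cn.pow 3).div_const _).mul (cq.mul cdq))
  have h1 := sphAvg_mono (F := fun x => r ^ 2 * QQ N h x +
      (r ^ 2 * (∑ i, pd i (Vf (fN N) i) x) + r ^ 3 / 2 *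
        ∑ i, pd i (fun y => qq h y * mixed h i y) x))
    (G := fun x => 1 - W (fN N) x - ‖x‖ * dr (W (fN N)) x +
      3 / 4 * ‖x‖ ^ 2 * (qq h x) ^ 2 + ‖x‖ ^ 3 / 2 * (qq h x * dr (qq h) x))
    ((continuousOn_const.mul cQ).add ((continuousOn_const.mul cV).add
      (continuousOn_const.mul cB))) cL hr (fun w hw => by
      have hx := ray_ne hw hr
      have h2 := point_id H hx (L.at hx) (L.pos _ hx)
      have h3 := matter_nonneg hx (L.pos _ hx) (dec w hw) (flux w hw)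
      rw [h2, ray_norm hw hr]
      rw [ray_norm hw hr] at h3
      linarith)
  refine le_trans (le_of_eq ?_) h1
  rw [sphAvg_add (F := fun x => r ^ 2 * QQ N h x) (G := fun x =>
      (r ^ 2 * (∑ i, pd i (Vf (fN N) i) x) + r ^ 3 / 2 *
        ∑ i, pd i (fun y => qq h y * mixed h i y) x)) (continuousOn_const.mul cQ)
      ((continuousOn_const.mul cV).add (continuousOn_const.mul cB)) hr,
    sphAvg_add (F := fun x => r ^ 2 * (∑ i, pd i (Vf (fN N) i) x)) (G := fun x => r ^ 3 / 2 *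
        ∑ i, pd i (fun y => qq h y * mixed h i y) x) (continuousOn_const.mul cV)
      (continuousOn_const.mul cB) hr, sphAvg_mul, sphAvg_mul, sphAvg_mul,
    sphAvg_div (V_smooth L) (fun x hx => V_tangential L hx) hr,
    sphAvg_div (X := fun i y => qq h y * mixed h i y) (qb_smooth H)
      (fun x hx => qb_tangential h hx) hr]
  ring

end Pool.Agent.J4.H62.QS
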