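import Pool.Agent.J4.H62.QS.Chr

/-!
# Metrics `δ + f x ⊗ x`: scalar curvature
-/

set_option autoImplicit false

namespace Pool.Agent.J4.H62.QS

open Pool.Agent.K4H63.PI
open scoped BigOperators Topology
open Matrix Filter Set

/-! ### algebra -/

/-- `M` contraction with general symmetric coefficients. -/
theorem alg4 (x p : Fin 3 → ℝ) (a : Fin 3 → Fin 3 → ℝ) (ha : ∀ i j, a i j = a j i) (κ : ℝ) :
    ∑ j, ∑ k, (kd j k - κ * (x j * x k)) * ∑ i, ∑ l,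
      (x i * a k l - 1 / 2 * (p i * (x k * x l))) * (x l * a i j - 1 / 2 * (p l * (x i * x j))) =
    (∑ k, (∑ l, a k l * x l) ^ 2) - κ * (∑ k, x k * ∑ l, a k l * x l) ^ 2 -
      (∑ i, x i * x i) * ((∑ k, p k * ∑ l, a k l * x l) -
        κ * (∑ i, x i * x i) * (∑ k, p k * ∑ l, a k l * x l)) +
      1 / 4 * (∑ i, x i * p i) ^ 2 * ((∑ i, x i * x i) - κ * (∑ i, x i * x i) ^ 2) := by
  simp only [Fin.sum_univ_three]
  simp only [kd]
  simp only [if_true, Fin.reduceEq, if_false]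
  rw [ha 1 0, ha 2 0, ha 2 1]
  ring

/-- The coefficients `b`. -/
noncomputable def bb (x p : Fin 3 → ℝ) (f D : ℝ) (i j : Fin 3) : ℝ :=
  1 / 2 * (p i * x j + p j * x i) + f * kd i j + 1 / 2 * (f * D * (x i * x j))

theorem bb_symm (x p : Fin 3 → ℝ) (f D : ℝ) (i j : Fin 3) : bb x p f D i j = bb x p f D j i := by
  unfold bb
  rw [kd_symm i j]
  ring

theorem bb_x (x p : Fin 3 → ℝ) (f D : ℝ) (k : Fin 3) (hD : D = ∑ i, x i * p i) :
    ∑ l, bb x p f D k l * x l = 1 / 2 * (∑ i, x i * x i) * p k +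
      (1 / 2 * D + f + 1 / 2 * (f * D * (∑ i, x i * x i))) * x k := by
  have h1 := kd_sum k x
  unfold bb
  rw [hD]
  simp only [Fin.sum_univ_three]
  linear_combination f * h1

/-- The fourth contraction. -/
theorem s4 (x p : Fin 3 → ℝ) (f w D ρ g2 : ℝ) (hD : D = ∑ i, x i * p i) (hρ : ρ = ∑ i, x i * x i)
    (hg : g2 = ∑ i, p i * p i) :
    ∑ j, ∑ k, (kd j k - f * w * (x j * x k)) * ∑ i, ∑ l,
      (x i * (w * bb x p f D k l) - 1 / 2 * (p i * (x k * x l))) *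
        (x l * (w * bb x p f D i j) - 1 / 2 * (p l * (x i * x j))) =
    w ^ 2 * (1 / 4 * ρ ^ 2 * g2 + ρ * (1 / 2 * D + f + 1 / 2 * (f * D * ρ)) * D +
      (1 / 2 * D + f + 1 / 2 * (f * D * ρ)) ^ 2 * ρ) -
    f * w * (w * (1 / 2 * ρ * D + (1 / 2 * D + f + 1 / 2 * (f * D * ρ)) * ρ)) ^ 2 -
    ρ * (1 - f * w * ρ) * (w * (1 / 2 * ρ * g2 + (1 / 2 * D + f + 1 / 2 * (f * D * ρ)) * D)) +
    1 / 4 * D ^ 2 * (ρ - f * w * ρ ^ 2) := by
  have h1 := alg4 x p (fun i j => w * bb x p f D i j)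
    (fun i j => by rw [bb_symm]) (f * w)
  have h2 : ∀ k, ∑ l, (w * bb x p f D k l) * x l = w * (1 / 2 * ρ * p k +
      (1 / 2 * D + f + 1 / 2 * (f * D * ρ)) * x k) := by
    intro k
    have := bb_x x p f D k hD
    rw [← hρ] at this
    rw [← this, Finset.mul_sum]
    exact Finset.sum_congr rfl fun l _ => by ring
  simp only [h2] at h1
  rw [h1, ← hρ, ← hD]
  set c := (1 / 2 * D + f + 1 / 2 * (f * D * ρ)) with hc
  have e1 : ∑ k, (w * (1 / 2 * ρ * p k + c * x k)) ^ 2 =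
      w ^ 2 * (1 / 4 * ρ ^ 2 * g2 + ρ * c * D + c ^ 2 * ρ) := by
    have : ∀ k, (w * (1 / 2 * ρ * p k + c * x k)) ^ 2 = w ^ 2 * (1 / 4 * ρ ^ 2) * (p k * p k) +
        w ^ 2 * (ρ * c) * (x k * p k) + w ^ 2 * c ^ 2 * (x k * x k) := fun k => by ring
    simp only [this]
    rw [Finset.sum_add_distrib, Finset.sum_add_distrib, ← Finset.mul_sum, ← Finset.mul_sum,
      ← Finset.mul_sum, ← hg, ← hD, ← hρ]
    ring
  have e2 : ∑ k, x k * (w * (1 / 2 * ρ * p k + c * x k)) = w * (1 / 2 * ρ * D + c * ρ) := by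
    have : ∀ k, x k * (w * (1 / 2 * ρ * p k + c * x k)) = w * (1 / 2 * ρ) * (x k * p k) +
        w * c * (x k * x k) := fun k => by ring
    simp only [this]
    rw [Finset.sum_add_distrib, ← Finset.mul_sum, ← Finset.mul_sum, ← hD, ← hρ]
    ring
  have e3 : ∑ k, p k * (w * (1 / 2 * ρ * p k + c * x k)) = w * (1 / 2 * ρ * g2 + c * D) := by
    have : ∀ k, p k * (w * (1 / 2 * ρ * p k + c * x k)) = w * (1 / 2 * ρ) * (p k * p k) +
        w * c * (x k * p k) := fun k => by ring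
    simp only [this]
    rw [Finset.sum_add_distrib, ← Finset.mul_sum, ← Finset.mul_sum, ← hD, ← hg]
    ring
  rw [e1, e2, e3]
  ring

/-- The third contraction. -/
theorem s3 (x p : Fin 3 → ℝ) (f w D ρ g2 : ℝ) (hD : D = ∑ i, x i * p i) (hρ : ρ = ∑ i, x i * x i)
    (hg : g2 = ∑ i, p i * p i) :
    ∑ j, ∑ k, (kd j k - f * w * (x j * x k)) * ∑ l, (w * (1 / 2 * p l * ρ + f * x l)) *
      (x l * (w * bb x p f D j k) - 1 / 2 * (p l * (x j * x k))) =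
    w * ((D + 3 * f + 1 / 2 * (f * D * ρ)) - f * w * (D * ρ + f * ρ + 1 / 2 * (f * D * ρ ^ 2))) *
      (w * (1 / 2 * D * ρ + f * ρ)) -
      1 / 2 * (ρ - f * w * ρ ^ 2) * (w * (1 / 2 * g2 * ρ + f * D)) := by
  rw [hD, hρ, hg]
  unfold bb
  simp only [Fin.sum_univ_three]
  simp only [kd]
  simp only [if_true, Fin.reduceEq, if_false]
  ring

/-- The second contraction. -/
theorem s2 (x p : Fin 3 → ℝ) (P : Fin 3 → Fin 3 → ℝ) (f w D ρ g2 L E' : ℝ)
    (hD : D = ∑ i, x i * p i) (hρ : ρ = ∑ i, x i * x i) (hg : g2 = ∑ i, p i * p i)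
    (hL : L = ∑ i, P i i) (hE : E' = ∑ i, ∑ j, x i * x j * P i j) :
    ∑ j, ∑ k, (kd j k - f * w * (x j * x k)) *
      (w * (1 / 2 * (p j * (2 * x k) + ρ * P k j) + (f * kd k j + x j * p k)) +
        (1 / 2 * (p j * ρ) + f * x j) * (-(w ^ 2) * (f * (2 * x k) + ρ * p k))) =
    -(1 / 2) * w ^ 2 * (ρ ^ 2 * (g2 - f * w * D ^ 2) + 4 * f * ρ * (D - f * w * ρ * D) +
      4 * f ^ 2 * (ρ - f * w * ρ ^ 2)) +
    w * (1 / 2 * ρ * (L - f * w * E') + 2 * (D - f * w * ρ * D) + f * (3 - f * w * ρ)) := by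
  rw [hD, hρ, hg, hL, hE]
  simp only [Fin.sum_univ_three]
  simp only [kd]
  simp only [if_true, Fin.reduceEq, if_false]
  ring

/-- The derivative of the coefficients `w b_{ij}`. -/
noncomputable def ab' (x p : Fin 3 → ℝ) (P : Fin 3 → Fin 3 → ℝ) (f w D ρ : ℝ)
    (m i j : Fin 3) : ℝ :=
  w * (1 / 2 * (p i * kd m j + x j * P m i + (p j * kd m i + x i * P m j)) + kd i j * p m +
    1 / 2 * (f * D * (x i * kd m j + x j * kd m i) +
      x i * x j * (f * (p m + ∑ l, x l * P m l) + D * p m))) +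
  bb x p f D i j * (-(w ^ 2) * (f * (2 * x m) + ρ * p m))

/-- The first contraction. -/
theorem s1 (x p : Fin 3 → ℝ) (P : Fin 3 → Fin 3 → ℝ) (f w D ρ L E' : ℝ)
    (hD : D = ∑ i, x i * p i) (hρ : ρ = ∑ i, x i * x i)
    (hL : L = ∑ i, P i i) (hE : E' = ∑ i, ∑ j, x i * x j * P i j) :
    ∑ j, ∑ k, (kd j k - f * w * (x j * x k)) * ∑ i,
      ((x i * ab' x p P f w D ρ i j k + w * bb x p f D j k * kd i i) -
        1 / 2 * (p i * (x j * kd i k + x k * kd i j) + x j * x k * P i i)) =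
    (3 * w - w ^ 2 * (D * ρ + 2 * f * ρ)) * ((D + 3 * f + 1 / 2 * (f * D * ρ)) -
      f * w * (D * ρ + f * ρ + 1 / 2 * (f * D * ρ ^ 2))) +
    w * (((E' + D) + 3 * D + 1 / 2 * (D ^ 2 + f * (D + E') + 2 * f * D) * ρ) -
      f * w * ((E' + D) * ρ + D * ρ + 1 / 2 * (D ^ 2 + f * (D + E') + 2 * f * D) * ρ ^ 2)) -
    1 / 2 * (L * (ρ - f * w * ρ ^ 2) + 2 * (D - f * w * ρ * D)) := by
  rw [hD, hρ, hL, hE]
  unfold ab' bb
  simp only [Fin.sum_univ_three]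
  simp only [kd]
  simp only [if_true, Fin.reduceEq, if_false]
  ring

end Pool.Agent.J4.H62.QS
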