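import Pool.Agent.J4.H62.QS.Scal
import Pool.Agent.K4H63.PI.Horizon

/-!
# Metrics `δ + f x ⊗ x`: scalar curvature, conclusion
-/

set_option autoImplicit false

namespace Pool.Agent.J4.H62.QS

open Pool.Agent.K4H63.PI
open scoped BigOperators Topology
open Matrix Filter Set

theorem final_alg (f w D ρ g2 L E' : ℝ) (hw : w * (1 + f * ρ) = 1) :
    ((3 * w - w ^ 2 * (D * ρ + 2 * f * ρ)) * ((D + 3 * f + 1 / 2 * (f * D * ρ)) -
      f * w * (D * ρ + f * ρ + 1 / 2 * (f * D * ρ ^ 2))) +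
    w * (((E' + D) + 3 * D + 1 / 2 * (D ^ 2 + f * (D + E') + 2 * f * D) * ρ) -
      f * w * ((E' + D) * ρ + D * ρ + 1 / 2 * (D ^ 2 + f * (D + E') + 2 * f * D) * ρ ^ 2)) -
    1 / 2 * (L * (ρ - f * w * ρ ^ 2) + 2 * (D - f * w * ρ * D))) -
    (-(1 / 2) * w ^ 2 * (ρ ^ 2 * (g2 - f * w * D ^ 2) + 4 * f * ρ * (D - f * w * ρ * D) +
      4 * f ^ 2 * (ρ - f * w * ρ ^ 2)) +
    w * (1 / 2 * ρ * (L - f * w * E') + 2 * (D - f * w * ρ * D) + f * (3 - f * w * ρ))) +
    (w * ((D + 3 * f + 1 / 2 * (f * D * ρ)) - f * w * (D * ρ + f * ρ + 1 / 2 * (f * D * ρ ^ 2))) *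
      (w * (1 / 2 * D * ρ + f * ρ)) -
      1 / 2 * (ρ - f * w * ρ ^ 2) * (w * (1 / 2 * g2 * ρ + f * D))) -
    (w ^ 2 * (1 / 4 * ρ ^ 2 * g2 + ρ * (1 / 2 * D + f + 1 / 2 * (f * D * ρ)) * D +
      (1 / 2 * D + f + 1 / 2 * (f * D * ρ)) ^ 2 * ρ) -
    f * w * (w * (1 / 2 * ρ * D + (1 / 2 * D + f + 1 / 2 * (f * D * ρ)) * ρ)) ^ 2 -
    ρ * (1 - f * w * ρ) * (w * (1 / 2 * ρ * g2 + (1 / 2 * D + f + 1 / 2 * (f * D * ρ)) * D)) +
    1 / 4 * D ^ 2 * (ρ - f * w * ρ ^ 2)) =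
    2 * f * w + 4 * f * w ^ 2 + 2 * D * w ^ 2 + 2 * D * w - w * (ρ * L - E') +
      1 / 2 * w ^ 2 * ρ * (ρ * g2 - D ^ 2) := by
  have h0 : 1 + f * ρ ≠ 0 := by
    intro h
    rw [h, mul_zero] at hw
    exact zero_ne_one hw
  have hw' : w = 1 / (1 + f * ρ) := by
    field_simp
    linarith
  rw [hw']
  field_simp
  ring

/-! ### derivatives -/

section

variable {f : E → ℝ} {x : E}

/-- The first and second partial derivatives of `f`. -/
structure Jet (f : E → ℝ) (x : E) : Prop where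
  one : HasPd f (fun m => pd m f x) x
  two : ∀ i, HasPd (pd i f) (fun m => pd m (pd i f) x) x

theorem Jet.of_contDiffAt (h : ContDiffAt ℝ 2 f x) : Jet f x :=
  ⟨⟨h.differentiableAt (by norm_num), fun _ => rfl⟩, fun i => ⟨pd_diff h i, fun _ => rfl⟩⟩

theorem W_pd (hf : HasPd f (fun m => pd m f x) x) (h0 : 1 + f x * R2 x ≠ 0) :
    HasPd (W f) (fun m => -((W f x) ^ 2) * (f x * (2 * x m) + R2 x * pd m f x)) x := by
  have h1 := ((HasPd.const 1 x).add (hf.mul (R2_pd x))).inv h0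
  refine HasPd.congr' (F := W f) h1 fun m => ?_
  unfold W
  rw [inv_pow]
  ring

theorem Dd_pd (J : Jet f x) :
    HasPd (Dd f) (fun m => pd m f x + ∑ l, x l * pd m (pd l f) x) x := by
  have h1 := (((HasPd.coord 0 x).mul (J.two 0)).add ((HasPd.coord 1 x).mul (J.two 1))).add
    ((HasPd.coord 2 x).mul (J.two 2))
  refine HasPd.congr' (F := Dd f) h1 fun m => ?_
  have h2 : kd m 0 * pd 0 f x + kd m 1 * pd 1 f x + kd m 2 * pd 2 f x = pd m f x :=
    kd_sum m (fun l => pd l f x)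
  rw [Fin.sum_univ_three]
  linear_combination h2

theorem aa_eq (i j : Fin 3) (y : E) :
    aa f i j y = W f y * bb (fun l => y l) (fun l => pd l f y) (f y) (Dd f y) i j := by
  unfold aa bb
  rfl

theorem aa_pd (J : Jet f x) (h0 : 1 + f x * R2 x ≠ 0) (i j : Fin 3) :
    HasPd (aa f i j) (fun m => ab' (fun l => x l) (fun l => pd l f x)
      (fun m l => pd m (pd l f) x) (f x) (W f x) (Dd f x) (R2 x) m i j) x := by
  have ci := HasPd.coord i x
  have cj := HasPd.coord j x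
  have h1 := (W_pd J.one h0).mul (((HasPd.const_mul (1 / 2) (((J.two i).mul cj).add
    ((J.two j).mul ci))).add (J.one.mul (HasPd.const (kd i j) x))).add
    (HasPd.const_mul (1 / 2) ((J.one.mul (Dd_pd J)).mul (ci.mul cj))))
  refine HasPd.congr' (F := aa f i j) h1 fun m => ?_
  unfold ab' bb
  ring

theorem near_mf (hf : ContDiffAt ℝ 2 f x) (h0 : 1 + f x * R2 x ≠ 0) :
    ∀ᶠ y in 𝓝 x, DifferentiableAt ℝ f y ∧ 1 + f y * R2 y ≠ 0 := by
  have h1 : ∀ᶠ y in 𝓝 x, ContDiffAt ℝ 1 f y :=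
    (hf.of_le (by norm_num)).eventually (by norm_num)
  have hc : ContinuousAt (fun y => 1 + f y * R2 y) x :=
    continuousAt_const.add (hf.continuousAt.mul (R2_pd x).diff.continuousAt)
  filter_upwards [h1, hc.eventually_ne h0] with y h2 h3
  exact ⟨h2.differentiableAt (by norm_num), h3⟩

theorem chr_pd (hf : ContDiffAt ℝ 2 f x) (h0 : 1 + f x * R2 x ≠ 0) (k i j : Fin 3) :
    HasPd (chr (mf f) k i j) (fun m => (x k * ab' (fun l => x l) (fun l => pd l f x)
      (fun m l => pd m (pd l f) x) (f x) (W f x) (Dd f x) (R2 x) m i j +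
      W f x * bb (fun l => x l) (fun l => pd l f x) (f x) (Dd f x) i j * kd m k) -
      1 / 2 * (pd k f x * (x i * kd m j + x j * kd m i) + x i * x j * pd m (pd k f) x)) x := by
  have J := Jet.of_contDiffAt hf
  have h1 := ((HasPd.coord k x).mul (aa_pd J h0 i j)).sub
    (HasPd.const_mul (1 / 2) ((J.two k).mul ((HasPd.coord i x).mul (HasPd.coord j x))))
  have h2 : chr (mf f) k i j =ᶠ[𝓝 x]
      fun y => y k * aa f i j y - 1 / 2 * (pd k f y * (y i * y j)) := by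
    filter_upwards [near_mf hf h0] with y hy
    exact chr_mf hy.1 hy.2 k i j
  refine HasPd.congr' (h1.congr h2) fun m => ?_
  rw [aa_eq]

theorem tr_eq (hf : DifferentiableAt ℝ f x) (h0 : 1 + f x * R2 x ≠ 0) (j : Fin 3) :
    ∑ i, chr (mf f) i i j x = W f x * (1 / 2 * (pd j f x * R2 x) + f x * x j) := by
  have hw : W f x * (1 + f x * R2 x) = 1 := inv_mul_cancel₀ h0
  have h1 := bb_x (fun l => x l) (fun l => pd l f x) (f x) (Dd f x) j
    (by unfold Dd; rw [Fin.sum_univ_three])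
  have hR : ∑ i, x i * x i = R2 x := by unfold R2; rw [Fin.sum_univ_three]
  have hD : Dd f x = x 0 * pd 0 f x + x 1 * pd 1 f x + x 2 * pd 2 f x := rfl
  rw [hR] at h1
  simp only [chr_mf hf h0, aa_eq]
  rw [Finset.sum_sub_distrib]
  have h2 : ∑ i, x i * (W f x * bb (fun l => x l) (fun l => pd l f x) (f x) (Dd f x) i j) =
      W f x * (1 / 2 * R2 x * pd j f x + (1 / 2 * Dd f x + f x + 1 / 2 * (f x * Dd f x * R2 x)) *
        x j) := by
    rw [← h1, Finset.mul_sum]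
    refine Finset.sum_congr rfl fun l _ => ?_
    rw [bb_symm]
    ring
  rw [h2, Fin.sum_univ_three]
  linear_combination (1 / 2 * Dd f x * x j) * hw + (1 / 2 * x j) * hD

theorem tr_pd (hf : ContDiffAt ℝ 2 f x) (h0 : 1 + f x * R2 x ≠ 0) (j : Fin 3) :
    HasPd (fun y => ∑ i, chr (mf f) i i j y) (fun m => W f x * (1 / 2 * (pd j f x * (2 * x m) +
      R2 x * pd m (pd j f) x) + (f x * kd m j + x j * pd m f x)) +
      (1 / 2 * (pd j f x * R2 x) + f x * x j) *
        (-((W f x) ^ 2) * (f x * (2 * x m) + R2 x * pd m f x))) x := by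
  have J := Jet.of_contDiffAt hf
  have h1 := (W_pd J.one h0).mul ((HasPd.const_mul (1 / 2) ((J.two j).mul (R2_pd x))).add
    (J.one.mul (HasPd.coord j x)))
  have h2 : (fun y => ∑ i, chr (mf f) i i j y) =ᶠ[𝓝 x]
      fun y => W f y * (1 / 2 * (pd j f y * R2 y) + f y * y j) := by
    filter_upwards [near_mf hf h0] with y hy
    exact tr_eq hy.1 hy.2 j
  refine HasPd.congr' (h1.congr h2) fun m => ?_
  ring

theorem split_sum (g A B C D : Fin 3 → Fin 3 → ℝ) :
    ∑ j, ∑ k, g j k * (A j k - B j k + C j k - D j k) =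
      (∑ j, ∑ k, g j k * A j k) - (∑ j, ∑ k, g j k * B j k) + (∑ j, ∑ k, g j k * C j k) -
        ∑ j, ∑ k, g j k * D j k := by
  simp only [Fin.sum_univ_three]
  ring

/-- The scalar curvature of `δ + f x ⊗ x`. -/
theorem scal_mf (hf : ContDiffAt ℝ 2 f x) (h0 : 1 + f x * R2 x ≠ 0) :
    scal (mf f) x = 2 * f x * W f x + 4 * f x * (W f x) ^ 2 + 2 * Dd f x * (W f x) ^ 2 +
      2 * Dd f x * W f x - W f x * (R2 x * (∑ i, pd i (pd i f) x) -
        ∑ i, ∑ j, x i * x j * pd i (pd j f) x) +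
      1 / 2 * (W f x) ^ 2 * R2 x * (R2 x * (∑ i, pd i f x * pd i f x) - (Dd f x) ^ 2) := by
  have hw : W f x * (1 + f x * R2 x) = 1 := inv_mul_cancel₀ h0
  have hfd := hf.differentiableAt (by norm_num : (2 : WithTop ℕ∞) ≠ 0)
  have hD : Dd f x = ∑ i, x i * pd i f x := by unfold Dd; rw [Fin.sum_univ_three]
  have hR : R2 x = ∑ i, x i * x i := by unfold R2; rw [Fin.sum_univ_three]
  rw [← final_alg (f x) (W f x) (Dd f x) (R2 x) (∑ i, pd i f x * pd i f x)
    (∑ i, pd i (pd i f) x) (∑ i, ∑ j, x i * x j * pd i (pd j f) x) hw]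
  rw [← s1 (fun l => x l) (fun l => pd l f x) (fun m l => pd m (pd l f) x) (f x) (W f x)
    (Dd f x) (R2 x) _ _ hD hR rfl rfl,
    ← s2 (fun l => x l) (fun l => pd l f x) (fun m l => pd m (pd l f) x) (f x) (W f x)
    (Dd f x) (R2 x) _ _ _ hD hR rfl rfl rfl,
    ← s3 (fun l => x l) (fun l => pd l f x) (f x) (W f x) (Dd f x) (R2 x) _ hD hR rfl,
    ← s4 (fun l => x l) (fun l => pd l f x) (f x) (W f x) (Dd f x) (R2 x) _ hD hR rfl]
  unfold scal
  rw [mf_inv f h0]
  have hsum : ∀ j k, ∑ i, (pd i (chr (mf f) i j k) x - pd k (chr (mf f) i i j) x +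
      ∑ l, (chr (mf f) i i l x * chr (mf f) l j k x - chr (mf f) i k l x * chr (mf f) l i j x)) =
      ∑ i, pd i (chr (mf f) i j k) x - pd k (fun y => ∑ i, chr (mf f) i i j y) x +
      ∑ l, (∑ i, chr (mf f) i i l x) * chr (mf f) l j k x -
      ∑ i, ∑ l, chr (mf f) i k l x * chr (mf f) l i j x := by
    intro j k
    have e1 : pd k (fun y => ∑ i, chr (mf f) i i j y) x = ∑ i, pd k (chr (mf f) i i j) x :=
      pd_sum (fun i => (chr_pd hf h0 i i j).diff) k
    rw [e1]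
    have e2 : ∑ l, (∑ i, chr (mf f) i i l x) * chr (mf f) l j k x =
        ∑ i, ∑ l, chr (mf f) i i l x * chr (mf f) l j k x := by
      rw [Finset.sum_comm]
      exact Finset.sum_congr rfl fun l _ => by rw [Finset.sum_mul]
    rw [e2]
    simp only [Finset.sum_add_distrib, Finset.sum_sub_distrib]
    ring
  have hA : ∀ j k, ∑ i, pd i (chr (mf f) i j k) x = ∑ i,
      ((x i * ab' (fun l => x l) (fun l => pd l f x) (fun m l => pd m (pd l f) x) (f x) (W f x)
        (Dd f x) (R2 x) i j k + W f x * bb (fun l => x l) (fun l => pd l f x) (f x) (Dd f x) j k *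
        kd i i) - 1 / 2 * (pd i f x * (x j * kd i k + x k * kd i j) +
        x j * x k * pd i (pd i f) x)) :=
    fun j k => Finset.sum_congr rfl fun i _ => (chr_pd hf h0 i j k).eq i
  have hC : ∀ j k, ∑ l, (∑ i, chr (mf f) i i l x) * chr (mf f) l j k x =
      ∑ l, (W f x * (1 / 2 * pd l f x * R2 x + f x * x l)) *
        (x l * (W f x * bb (fun l => x l) (fun l => pd l f x) (f x) (Dd f x) j k) -
          1 / 2 * (pd l f x * (x j * x k))) :=
    fun j k => Finset.sum_congr rfl fun l _ => by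
      rw [tr_eq hfd h0, chr_mf hfd h0, aa_eq]
      ring
  have hE : ∀ j k, ∑ i, ∑ l, chr (mf f) i k l x * chr (mf f) l i j x =
      ∑ i, ∑ l, (x i * (W f x * bb (fun l => x l) (fun l => pd l f x) (f x) (Dd f x) k l) -
          1 / 2 * (pd i f x * (x k * x l))) *
        (x l * (W f x * bb (fun l => x l) (fun l => pd l f x) (f x) (Dd f x) i j) -
          1 / 2 * (pd l f x * (x i * x j))) :=
    fun j k => Finset.sum_congr rfl fun i _ => Finset.sum_congr rfl fun l _ => by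
      rw [chr_mf hfd h0, chr_mf hfd h0, aa_eq, aa_eq]
  simp only [hsum, hA, (tr_pd hf h0 _).eq, hC, hE]
  simp only [mfi, Matrix.of_apply]
  exact split_sum _ _ _ _ _

end

end Pool.Agent.J4.H62.QS
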